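import Pool.Agent.Lib.MP_ab8df0_nt.A.N0.Def

/-! Small primes. -/

namespace Pool.Agent.Lib.MP_ab8df0_nt.A.N0

open Pool.Agent.Lib.MP_ab8df0_nt.A

theorem a0 : CovA fl 30 1373170 m 2 ρ 0 (0 + 60) := covA _ _ _ _ _ _ _ _
  [(0, []),
  (0, [⟨[4, 0, 0], 1, 3, [0, 3], [-1, 0, 0, 0, 0, 0, 0, 0, 0, 1]⟩, ⟨[3, 0, 0, 6, 0, 0, 5, 0, 0, 3, 0, 0], 1, 8, [0, 0, 2, 0, 0, 2, 0, 0, 6, 0, 0, 3], []⟩]),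
  (0, [⟨[7, 0, 0, 0, 0], 1, 5, [0, 6], [-1, 0, 0, 0, 0, 1, 0, 0, 0, 0, 1]⟩, ⟨[6, 0, 0, 0, 0, 4, 0, 0, 0, 0], 1, 6, [2, 0, 0, 0, 0, 1], []⟩]),
  (0, [⟨[6, 0, 0], 1, 3, [0, 8], [-1, 0, 0, 1, 0, 0, 0, 0, 0, 1]⟩, ⟨[4, 0, 0, 5, 0, 0, 3, 0, 0, 7, 0, 0], 1, 6, [0, 11, 0, 0, 12, 0, 0, 5, 0, 0, 4], []⟩]),
  (0, [⟨[9], 1, 1, [1], [1, 0, 0, 0, 1]⟩, ⟨[4, 8], 1, 2, [12, 14], [1, 0, 0, 0, 0, 0, 0, 0, 0, 0, 0, 0, 1]⟩, ⟨[1, 10, 9, 3], 1, 4, [5, 5, 0, 8], [1, 1, 0, 1, 1, 0, 1, -1, 0, 1]⟩, ⟨[1, 2, 4, 8], 1, 4, [0, 10, 14], [1, 0, 0, 0, 0, 2]⟩, ⟨[1, 5, 9, 6], 1, 4, [2, 0, 14, 9], [-1, 0, 0, 0, 1, -1, -1, -1, 0, 1]⟩]),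
  (0, [⟨[15, 0, 0], 1, 3, [0, 11], [-1, 0, 0, -1, 0, 0, 1]⟩, ⟨[3, 0, 0, 1, 0, 0], 1, 5, [0, 0, 18], []⟩, ⟨[3, 0, 0, 3, 0, 0], 1, 5, [0, 0, 15, 0, 0, 2], []⟩]),
  (0, [⟨[8], 1, 1, [1], [-1, 0, 1, 1]⟩, ⟨[5, 15], 1, 2, [1, 6], [1, 0, 0, 0, 0, 0, 1, 0, 0, 1]⟩, ⟨[21, 17, 5, 15], 1, 4, [0, 7, 2], [-3, 0, 0, 0, 0, 0, 0, 0, 0, 0, 1]⟩, ⟨[21, 10, 13, 10], 1, 4, [9, 1, 5, 13], [-1, 0, 1, 1, -1, 0, 0, 0, 0, 0, -1, 0, 0, 1]⟩, ⟨[21, 19, 13, 21], 1, 4, [3, 8, 19, 10], [-1, -1, 0, 0, 1, 1, 0, -1, -1, 1]⟩]),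
  (0, [⟨[27], 1, 1, [1], [-1, 1, 0, 0, 0, -1]⟩, ⟨[25, 2], 1, 2, [24, 5], [1, 0, 0, 1, 0, 0, 0, 0, 0, 0, 0, 0, 1]⟩, ⟨[25, 21], 1, 2, [24, 6], [1, 0, 0, 0, 0, -1, 1]⟩, ⟨[25, 16], 1, 2, [2, 7], [1, -1, -1, 0, -1, 0, 1]⟩, ⟨[25, 19], 1, 2, [13, 20], [1, 0, 0, 0, -1, 0, -1, 0, 0, 1]⟩, ⟨[25, 18], 1, 2, [1, 16], [-1, -1, 0, 0, 0, 0, 0, 0, 0, 0, 1]⟩, ⟨[25, 1], 1, 2, [27, 4], [1, -1, -1, 1, 0, 1]⟩, ⟨[25, 12], 1, 2, [1, 24], [-1, 0, 0, 1, 1, 0, 1]⟩]),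
  (0, [⟨[4, 0, 0, 0, 0], 1, 5, [0, 14], []⟩, ⟨[20, 0, 0, 0, 0], 1, 5, [0, 9], []⟩, ⟨[7, 0, 0, 0, 0], 1, 5, [0, 8], []⟩]),
  (0, [⟨[24, 0, 0], 1, 3, [0, 18], [1, 0, 0, -1, 0, 0, 0, 0, 0, 1]⟩, ⟨[3, 0, 0, 14, 0, 0, 16, 0, 0, 13, 0, 0], 1, 4, [8, 0, 0, 6, 0, 0, 9, 0, 0, 36], []⟩]),
  (0, [⟨[5, 0, 0, 0, 0], 1, 4, [0, 0, 17], []⟩, ⟨[16, 0, 0, 0, 0, 36, 0, 0, 0, 0], 1, 4, [0, 0, 7, 0, 0, 0, 0, 12], []⟩]),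
  (0, [⟨[29], 1, 1, [1], [-1, 0, 1, 0, 0, 1]⟩, ⟨[2], 1, 1, [1], [1, 0, 0, 0, 0, 0, 0, 1]⟩, ⟨[12], 1, 1, [1], [1, 0, 0, 1, 0, 1]⟩, ⟨[26, 35, 19, 14], 1, 4, [0, 42, 3], []⟩, ⟨[27, 35, 39, 41], 1, 4, [0, 7, 18], []⟩, ⟨[33, 35, 28, 31], 1, 4, [0, 37, 22], []⟩]),
  (0, [⟨[6], 1, 1, [1], [1, 0, 0, -1, 1]⟩, ⟨[11, 41], 1, 2, [34, 27], [1, 0, 0, 1, 0, 0, -1, 0, 0, 1]⟩, ⟨[20, 19, 11, 41], 1, 4, [0, 39, 17], []⟩, ⟨[20, 30, 25, 13], 1, 4, [39, 38, 30, 43], []⟩, ⟨[20, 45, 25, 40], 1, 4, [40, 21, 1, 4], []⟩]),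
  (7, []),
  (0, [⟨[22], 1, 1, [1], [-1, 0, 0, -1, 1]⟩, ⟨[46, 31], 1, 2, [49, 43], [-1, 0, 0, 1, 0, 0, 1, 0, 0, 1]⟩, ⟨[4, 1, 14, 37], 1, 4, [25, 29, 37, 17], []⟩, ⟨[4, 47, 14, 38], 1, 4, [38, 12, 48, 36], []⟩, ⟨[4, 5, 46, 31], 1, 4, [0, 45, 10], []⟩]),
  (0, [⟨[55], 1, 1, [1], [1, -1, 0, 1]⟩, ⟨[43, 18], 1, 2, [45, 54], [-1, 1, -1, -1, -1, 1, 0, 1]⟩, ⟨[43, 21], 1, 2, [24, 23], [1, 1, 1, 0, 0, 0, 0, 0, 0, 0, 0, 1]⟩, ⟨[43, 1], 1, 2, [44, 30], [-1, 0, 0, 0, 0, -1, 0, 0, 1, 0, 0, 1]⟩, ⟨[43, 4], 1, 2, [54, 32], [-1, 0, 0, 0, 0, 0, 1, 0, 0, 0, 0, 0, 1]⟩, ⟨[43, 40], 1, 2, [20, 58], [1, 0, 1, -1, 0, 0, 1]⟩, ⟨[43, 52], 1, 2, [28, 8], [1, 0, 0, 1, 0, -1, -1, 1]⟩, ⟨[43, 45], 1, 2, [58, 42], [1, 0, 0, -1, 0, -1,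 0, 1, -1]⟩])] (by decide +kernel)

theorem a1 : CovA fl 30 1373170 m 2 ρ 60 (60 + 140) := covA _ _ _ _ _ _ _ _
  [(0, [⟨[2, 0, 0, 0, 0, 0, 0, 0, 0, 0, 0, 0, 0, 0, 0], 1, 4, [0, 0, 0, 0, 0, 0, 0, 0, 0, 0, 0, 0, 18], []⟩]),
  (0, [⟨[41, 0, 0], 1, 3, [0, 6], [-1, 0, 0, -1, 0, 0, 1, 0, 0, 0, 0, 0, 1]⟩, ⟨[31, 0, 0, 22, 0, 0, 61, 0, 0, 26, 0, 0], 1, 4, [33, 0, 0, 38, 0, 0, 53, 0, 0, 60], []⟩]),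
  (0, [⟨[49, 0, 0, 0, 0], 1, 4, [0, 0, 55], []⟩, ⟨[13, 0, 0, 0, 0, 22, 0, 0, 0, 0], 1, 4, [0, 0, 43, 0, 0, 0, 0, 10], []⟩]),
  (0, [⟨[4, 0, 0], 1, 3, [0, 67], [-1, 0, 0, -2, 0, 0, 0, 0, 0, -1]⟩, ⟨[36, 0, 0, 9, 0, 0, 57, 0, 0, 69, 0, 0], 1, 4, [64, 0, 0, 46, 0, 0, 42, 0, 0, 26], []⟩]),
  (7, []),
  (0, [⟨[19, 0, 0], 1, 3, [0, 61], [-1, 0, 0, -1, 0, 0, -1, 0, 0, 1]⟩, ⟨[34, 0, 0, 62, 0, 0], 1, 4, [29, 0, 0, 36], []⟩, ⟨[34, 0, 0, 77, 0, 0], 1, 4, [72, 0, 0, 33], []⟩]),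
  (0, [⟨[56], 1, 1, [1], [-1, 0, 0, 1, 0, 0, 0, 1]⟩, ⟨[18, 27], 1, 2, [42, 43], [-1, 0, 0, 0, 0, 0, 0, 0, 0, 1, 0, 0, 1]⟩, ⟨[8, 31, 47, 7], 1, 4, [44, 66, 77, 46], []⟩, ⟨[8, 40, 47, 49], 1, 4, [18, 28, 54, 37], []⟩, ⟨[8, 12, 18, 27], 1, 4, [0, 56, 82], []⟩]),
  (0, [⟨[8], 1, 1, [1], [1, 1, 1, 0, 0, 1]⟩, ⟨[25, 78], 1, 2, [37, 31], [-1, 0, 0, -1, 0, 0, -1, -1, 0, 0, 1]⟩, ⟨[25, 9], 1, 2, [3, 29], [-1, 1, 1, 0, 0, -1, 0, 0, 0, 0, 0, 0, 1]⟩, ⟨[25, 72], 1, 2, [75, 35], [1, 0, 1, 0, 0, 1, 0, 0, 0, 0, 0, 0, 0, 1]⟩, ⟨[25, 29], 1, 2, [25, 75], [-1, 0, 1, 0, 0, 0, 0, 0, 0, 0, 0, 0, 0, 1]⟩, ⟨[25, 77], 1, 2, [16, 62], [2, -1, 0, 1, -1, 0, 0, 1]⟩, ⟨[25, 2], 1, 2, [12, 77], [-1, 1, 0, 0, -1, 0, 0, 0, 0, -1, 1]⟩, ⟨[25,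 81], 1, 2, [26, 51], [1, -1, 0, 0, -1, 0, 0, 0, 0, 0, -1, 1]⟩]),
  (7, []),
  (0, [⟨[65, 0, 0], 1, 3, [0, 1], [1, 0, 0, 1, 0, 0, -1, 0, 0, -1, 0, 0, 1]⟩, ⟨[91, 0, 0, 79, 0, 0, 43, 0, 0, 32, 0, 0], 1, 4, [57, 0, 0, 60, 0, 0, 14, 0, 0, 7], []⟩]),
  (0, [⟨[26, 0, 0, 0, 0], 1, 4, [0, 0, 97], []⟩, ⟨[31, 0, 0, 0, 0, 75, 0, 0, 0, 0], 1, 4, [0, 0, 52, 0, 0, 0, 0, 14], []⟩]),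
  (0, [⟨[17, 0, 0], 1, 3, [0, 101], [1, 0, 0, 0, 0, 0, 1, 0, 0, -1, 0, 0, 1]⟩, ⟨[12, 0, 0, 31, 0, 0, 20, 0, 0, 86, 0, 0], 1, 4, [61, 0, 0, 43, 0, 0, 87, 0, 0, 66], []⟩]),
  (0, [⟨[51], 1, 1, [1], [1, 0, 0, 0, 0, 0, -1, 1]⟩, ⟨[74, 56], 1, 2, [7, 80], [-1, 0, -1, 0, 0, 0, 1, 1, 0, 0, 0, 1]⟩, ⟨[88, 100, 66, 35], 1, 4, [89, 63, 8, 17], []⟩, ⟨[88, 85, 66, 16], 1, 4, [88, 55, 80, 90], []⟩, ⟨[88, 29, 74, 56], 1, 4, [0, 98, 82], []⟩]),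
  (0, [⟨[59], 1, 1, [1], [1, 1, 0, 0, 1]⟩, ⟨[11], 1, 1, [1], [-1, -1, 1]⟩, ⟨[39], 1, 1, [1], [1, 0, -1, 0, 0, 1]⟩, ⟨[5, 63], 1, 2, [6, 5], [1, 0, 1, 0, -1, 0, 1, 0, 0, 1]⟩, ⟨[97, 1], 1, 2, [51, 7], [-1, 0, 0, 0, 0, 1, -1, 1, 0, 0, 1]⟩, ⟨[5, 7], 1, 2, [8, 60], [1, -1, 1, 0, 0, 1, 1]⟩, ⟨[7, 5], 1, 2, [33, 74], [1, 0, 1, 1, -1, 1, -1, 0, 0, 1]⟩, ⟨[97, 97], 1, 2, [68, 84], [0, -1, -1, 1, 0, 0, -1, -1, 0, 0, 0, 0, 0, 1]⟩, ⟨[7, 45], 1, 2, [52, 97], [-1, 0, -1, -1, 0, 0, -1, 0, 1, 1]⟩]),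
  (0, [⟨[111], 1, 1, [1], [-1, 0, 0, 0, 1, 0, 0, 1]⟩, ⟨[109, 2], 1, 2, [94, 19], [-1, 0, 0, 0, -1, 0, 0, -1, 0, 0, 0, 0, 0, 0, 1]⟩, ⟨[97, 37, 8, 17], 1, 3, [110, 53, 19, 12], []⟩, ⟨[97, 68, 8, 94], 1, 3, [30, 74, 52, 55], []⟩, ⟨[97, 8, 109, 2], 1, 3, [17, 48, 0, 36], []⟩]),
  (7, []),
  (11, []),
  (0, [⟨[38], 1, 1, [1], [1, 0, 1, -1, 0, 0, 0, 0, 1]⟩, ⟨[87], 1, 1, [1], [-1, 1, 0, 0, 1, 0, 0, 1]⟩, ⟨[2], 1, 1, [1], [-1, 0, 0, 0, 0, 0, 0, 1]⟩, ⟨[77, 119, 80, 89], 1, 3, [87, 73, 64], []⟩, ⟨[66, 119, 51, 40], 1, 3, [2, 73, 117], []⟩, ⟨[111, 119, 123, 125], 1, 3, [38, 73, 73], []⟩]),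
  (0, [⟨[54, 0, 0, 0, 0], 1, 3, [0, 0, 0, 128], []⟩, ⟨[97, 0, 0, 0, 0, 77, 0, 0, 0, 0], 1, 3, [0, 0, 0, 23, 0, 0, 0, 0, 91], []⟩]),
  (7, []),
  (0, [⟨[19], 1, 1, [1], [-1, 0, 1, -1, 0, 0, 0, 0, 1]⟩, ⟨[50, 118], 1, 2, [125, 42], [-1, 0, -1, -1, -1, 1, 1, -1, 1]⟩, ⟨[103, 128, 50, 118], 1, 3, [57, 70, 29], []⟩, ⟨[103, 95, 37, 62], 1, 3, [119, 129, 53, 30], []⟩, ⟨[103, 51, 37, 94], 1, 3, [133, 85, 80, 65], []⟩]),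
  (0, [⟨[18, 0, 0], 1, 3, [0, 121], []⟩, ⟨[93, 0, 0, 22, 0, 0], 1, 3, [0, 62, 0, 0, 32], []⟩, ⟨[93, 0, 0, 99, 0, 0], 1, 3, [0, 74, 0, 0, 79], []⟩]),
  (11, []),
  (0, [⟨[117], 1, 1, [1], [1, 0, 0, -1, 0, 0, 0, 1]⟩, ⟨[19, 32], 1, 2, [45, 81], [1, -1, 0, 0, 1, 0, -1, 0, 1, 1]⟩, ⟨[19, 61], 1, 2, [65, 120], [1, 1, 0, 0, -1, 0, -1, -1, 0, 0, 0, 0, 1]⟩, ⟨[19, 130], 1, 2, [136, 30], [1, 1, 0, -1, 0, 0, -1, 1, 0, 1]⟩, ⟨[19, 107], 1, 2, [131, 63], [1, 0, -1, 1, 0, 0, 1, 0, 1, 0, 1]⟩, ⟨[19, 120], 1, 2, [70, 123], [-1, 0, -1, 0, 1, 1, 0, 0, 0, 0, 0, 1]⟩, ⟨[19, 102], 1, 2, [8, 143], [1, 1, 0, 0, 0, 0, 0, 0, 0, -1, 0, 0, 0, 1]⟩, ⟨[19, 76], 1, 2, [60, 69], [-1, 0, 1, 1, 0, 0, -1, 1, 0, 1]⟩]),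
  (0, [⟨[22, 0, 0], 1, 3, [0, 135], []⟩, ⟨[49, 0, 0], 1, 3, [0, 113], []⟩, ⟨[116, 0, 0], 1, 3, [0, 23], []⟩, ⟨[90, 0, 0], 1, 3, [0, 33], []⟩, ⟨[25, 0, 0], 1, 3, [0, 149], []⟩]),
  (0, [⟨[123], 1, 1, [1], [1, 1, -1, 0, 0, 0, 1]⟩, ⟨[128], 1, 1, [1], [1, 0, -1, 0, 1, 0, 0, 1]⟩, ⟨[63], 1, 1, [1], [1, -1, 1, 0, 0, 0, 0, 1]⟩, ⟨[4, 54, 101, 29], 1, 3, [37, 132, 110], []⟩, ⟨[105, 54, 113, 94], 1, 3, [147, 132, 64], []⟩, ⟨[48, 54, 100, 34], 1, 3, [130, 132, 140], []⟩]),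
  (7, []),
  (0, [⟨[114, 0, 0], 1, 3, [0, 51], []⟩, ⟨[20, 0, 0, 126, 0, 0, 44, 0, 0, 49, 0, 0], 1, 3, [0, 121, 0, 0, 158, 0, 0, 16, 0, 0, 95], []⟩]),
  (0, [⟨[19], 1, 1, [1], [-1, -1, -1, 0, 0, 0, 0, 0, 1]⟩, ⟨[140, 148], 1, 2, [126, 66], [-1, 0, 0, 2, 0, 0, 1]⟩, ⟨[106, 110, 54, 151], 1, 3, [92, 44, 8, 122], []⟩, ⟨[106, 69, 54, 35], 1, 3, [137, 68, 107, 79], []⟩, ⟨[106, 155, 140, 148], 1, 3, [94, 64, 121], []⟩]),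
  (13, []),
  (0, [⟨[11], 1, 1, [1], [1, 0, -1, 1]⟩, ⟨[52, 162], 1, 2, [21, 51], [-1, 1, -1, -1, 1, 0, 0, 1]⟩, ⟨[64, 89, 69, 36], 1, 3, [62, 77, 31, 139], []⟩, ⟨[64, 53, 52, 162], 1, 3, [171, 47, 0, 147], []⟩, ⟨[64, 31, 69, 148], 1, 3, [161, 158, 50, 77], []⟩]),
  (0, [⟨[115], 1, 1, [1], [1, 0, 0, 1, 0, 0, 0, 0, 1]⟩, ⟨[21, 158], 1, 2, [136, 30], [-1, 1, 0, -1, 1, 0, 1, 0, 0, 0, 1]⟩, ⟨[21, 64], 1, 2, [55, 71], [-1, 0, 0, 1, 0, 0, 1, 0, 0, 1, 0, 0, 1]⟩, ⟨[21, 97], 1, 2, [46, 119], [-1, 0, -1, 0, 1, -1, 0, 0, 0, 0, 1, 0, -1]⟩, ⟨[21, 103], 1, 2, [173, 160], [-1, -1, 1, 1, 0, 0, -1, -1, 0, 1]⟩, ⟨[21, 146], 1, 2, [119, 94], [-1, 0, 1, 0, 1, -1, 0, -1, 0, 0, 1]⟩, ⟨[21, 172], 1, 2, [113, 109], [-1, 1, -1, 0,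 -1, 1, -1, 0, 0, 0, -1, 1]⟩, ⟨[21, 40], 1, 2, [3, 152], [1, 1, -1, 0, 0, -1, 1, 0, 0, 0, 1, 0, 0, 1]⟩]),
  (0, [⟨[2, 0, 0, 0, 0, 0, 0, 0, 0, 0, 0, 0, 0, 0, 0], 1, 3, [0, 0, 0, 0, 0, 0, 0, 0, 0, 0, 0, 0, 0, 5], []⟩]),
  (11, []),
  (0, [⟨[147, 0, 0, 0, 0], 1, 3, [0, 0, 0, 33], []⟩, ⟨[165, 0, 0, 0, 0, 44, 0, 0, 0, 0], 1, 3, [0, 0, 0, 52, 0, 0, 0, 0, 152], []⟩]),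
  (0, [⟨[83, 0, 0], 1, 3, [0, 162], []⟩, ⟨[186, 0, 0, 72, 0, 0, 59, 0, 0, 110, 0, 0], 1, 3, [0, 94, 0, 0, 8, 0, 0, 157, 0, 0, 153], []⟩]),
  (0, [⟨[12], 1, 1, [1], [-1, -1, 1, -1, 0, 1]⟩, ⟨[53, 185], 1, 2, [104, 83], [1, 0, 0, 0, 0, 0, 2, 0, 0, 1]⟩, ⟨[146, 127, 91, 59], 1, 3, [190, 30, 64, 191], []⟩, ⟨[146, 45, 53, 185], 1, 3, [29, 190, 163], []⟩, ⟨[146, 25, 91, 150], 1, 3, [111, 53, 21, 62], []⟩]),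
  (0, [⟨[45, 0, 0], 1, 3, [0, 171], []⟩, ⟨[164, 0, 0, 158, 0, 0], 1, 3, [0, 161, 0, 0, 9], []⟩, ⟨[164, 0, 0, 195, 0, 0], 1, 3, [0, 20, 0, 0, 112], []⟩])] (by decide +kernel)

theorem a2 : CovA fl 30 1373170 m 2 ρ 200 (200 + 200) := covA _ _ _ _ _ _ _ _
  [(7, []),
  (11, []),
  (0, [⟨[2, 0, 0, 0, 0, 0, 0, 0, 0, 0, 0, 0, 0, 0, 0], 1, 3, [0, 0, 0, 0, 0, 0, 0, 0, 0, 0, 0, 0, 0, 161], []⟩]),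
  (7, []),
  (13, []),
  (0, [⟨[58], 1, 1, [1], [-1, 0, 0, 1, 0, -1, 0, 1]⟩, ⟨[32], 1, 1, [1], [-1, -1, 0, 0, 0, 0, 0, 0, 0, 1]⟩, ⟨[133], 1, 1, [1], [-1, 0, 0, 0, 1, 0, 1]⟩, ⟨[168, 13, 151, 90], 1, 3, [70, 24, 0, 1], []⟩, ⟨[193, 13, 91, 191], 1, 3, [99, 24, 0, 183], []⟩, ⟨[85, 13, 204, 165], 1, 3, [54, 24, 0, 39], []⟩]),
  (0, [⟨[105], 1, 1, [1], [1, 0, -1, 0, -1, 0, 0, 1]⟩, ⟨[98, 122], 1, 2, [178, 105], [-1, -1, -1, -1, 1, 0, 0, 0, -1, 1]⟩, ⟨[157, 75, 98, 122], 1, 3, [164, 204, 179], []⟩, ⟨[157, 131, 31, 16], 1, 3, [131, 198, 72, 121], []⟩, ⟨[157, 21, 31, 89], 1, 3, [45, 41, 48, 164], []⟩]),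
  (0, [⟨[133], 1, 1, [1], [1, -1, 0, 0, 1, 0, 1]⟩, ⟨[136], 1, 1, [1], [1, 0, 1, 0, 0, 1]⟩, ⟨[189], 1, 1, [1], [1, 0, 0, 1, 0, 0, -1, 0, 1]⟩, ⟨[3, 195], 1, 2, [118, 209], [1, 0, 0, 1, 1, 0, 1, 1, 0, 1, 0, 1]⟩, ⟨[3, 74], 1, 2, [48, 172], [1, 0, 2, 1, 0, 0, 1]⟩, ⟨[173, 86], 1, 2, [20, 138], [1, -1, 1, 0, 1, -1, 1, 1, 1, 0, 1]⟩, ⟨[53, 24], 1, 2, [100, 68], [-1, 0, -1, 0, -1, 0, 0, 0, 1, 1]⟩, ⟨[53, 69], 1, 2, [161, 148], [-2, 2, 1, 1, 0, -1, 0, 1]⟩, ⟨[173, 10], 1, 2, [11, 181], [2, -1, 1, -2, 0, 1, 1]⟩]),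
  (0, [⟨[4], 1, 1, [1], [1, 0, 0, -1, 0, 0, 0, 0, 1]⟩, ⟨[217, 229], 1, 2, [136, 68], [1, 0, 0, 1, 0, 0, -1, 0, 0, 1, 0, 0, 1]⟩, ⟨[210, 169, 217, 229], 1, 3, [67, 75, 0, 116], []⟩, ⟨[210, 54, 32, 88], 1, 3, [52, 121, 125, 129], []⟩, ⟨[210, 10, 32, 149], 1, 3, [137, 21, 88, 218], []⟩]),
  (0, [⟨[17], 1, 1, [1], [-1, 0, -1, 0, 0, 0, 0, 1]⟩, ⟨[189, 86], 1, 2, [132, 147], [2, 1, 1, 0, 0, -1, 0, 1, 0, -1, 1]⟩, ⟨[189, 222], 1, 2, [75, 51], [-3, 0, 0, 0, 0, 0, 1]⟩, ⟨[189, 206], 1, 2, [54, 25], [1, 0, 0, -1, 0, 1, -1, 1, 0, 1]⟩, ⟨[189, 16], 1, 2, [171, 128], [1, 0, 0, -1, -2, 0, -1, 0, -1, 1]⟩, ⟨[189, 186], 1, 2, [158, 24], [1, -2, 0, 1, 0, 0, 0, 0, 1, 0, 1]⟩, ⟨[189, 75], 1, 2, [228, 166], [0, 1, 0, -1, 0, 0,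 -1, 0, -1, 0, 0, -1, 0, 0, 1]⟩, ⟨[189, 148], 1, 2, [87, 170], [1, 0, 0, 0, 1, -1, 0, 1, 1]⟩]),
  (0, [⟨[32, 0, 0], 1, 3, [0, 118], []⟩, ⟨[133, 0, 0], 1, 3, [0, 90], []⟩, ⟨[3, 0, 0], 1, 3, [0, 134], []⟩, ⟨[20, 0, 0], 1, 3, [0, 237], []⟩, ⟨[53, 0, 0], 1, 3, [0, 144], []⟩]),
  (13, []),
  (0, [⟨[87], 1, 1, [1], [-1, 0, 1, 1, 0, 0, 1]⟩, ⟨[42], 1, 1, [1], [-1, -1, 0, 1]⟩, ⟨[162], 1, 1, [1], [-1, 1, 0, 1]⟩, ⟨[234], 1, 1, [1], [1, 0, 0, 1, 0, 0, 0, 1]⟩, ⟨[228], 1, 1, [1], [1, -1, 0, 0, 1]⟩, ⟨[244, 209], 1, 2, [2, 24], [1, 0, 0, -1, -1, 1, 1, 1]⟩, ⟨[213, 17], 1, 2, [187, 229], [-1, 1, 0, 1, 1, 0, 1, 0, -1, 1]⟩, ⟨[212, 164], 1, 2, [226, 236], [-1, -1, -1, 1, 0, 0, 1, -1, 0, 0, 1]⟩, ⟨[224, 23], 1, 2, [40, 62],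 [1, 1, 1, 1, 0, -1, 0, -1, -1, 0, 0, 1]⟩, ⟨[111, 89], 1, 2, [47, 202], [1, 1, 1, -2, -1, 0, 1]⟩]),
  (11, []),
  (0, [⟨[129], 1, 1, [1], [1, 0, 0, 0, 0, 0, 0, 0, 1]⟩, ⟨[64, 128], 1, 2, [172, 174], [-1, -2, 0, 0, 0, 0, 0, 0, 1]⟩, ⟨[16, 218, 129, 28], 1, 3, [50, 205, 214, 49], []⟩, ⟨[16, 32, 64, 128], 1, 3, [204, 204, 45], []⟩, ⟨[16, 7, 129, 101], 1, 3, [223, 116, 59, 16], []⟩]),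
  (7, []),
  (0, [⟨[9], 1, 1, [1], [1, 0, 1, 0, 0, 0, 1]⟩, ⟨[182, 254], 1, 2, [39, 184], [-1, 0, 0, -1, -1, -1, 0, -1, 1, 0, 1]⟩, ⟨[14, 60, 182, 254], 1, 3, [213, 199, 0, 134], []⟩, ⟨[14, 112, 162, 131], 1, 3, [42, 46, 173, 210], []⟩, ⟨[14, 91, 162, 141], 1, 3, [156, 160, 52, 197], []⟩]),
  (0, [⟨[26], 1, 1, [1], [-1, 1, 1, 0, 0, 0, 0, 1]⟩, ⟨[131, 11], 1, 2, [161, 93], [-1, 1, 0, 1, 1, 1, 0, 1, -1, -1]⟩, ⟨[131, 113], 1, 2, [258, 24], [-1, 1, -1, 0, 0, 0, -1, 1, 0, 0, 0, 0, 0, 1]⟩, ⟨[131, 229], 1, 2, [232, 173], [1, 1, -1, -1, 0, 0, 1, 1, 1, 0, 1]⟩, ⟨[131, 77], 1, 2, [64, 180], [-1, 0, -1, 1, 1, 0, 1, 0, 0, -1, 1]⟩, ⟨[131, 232], 1, 2, [77, 215], [1, -1, 0, 0, 0, 0, 0, 0, 1, 1, 0, 0, 1]⟩, ⟨[131, 243],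 1, 2, [169, 13], [1, 0, 0, 1, 0, 0, 1, 0, 0, 1, 0, 0, -1]⟩, ⟨[131, 145], 1, 2, [5, 204], [1, 0, 1, 0, 1, 1, 0, 0, -2]⟩]),
  (0, [⟨[2, 0, 0, 0, 0, 0, 0, 0, 0, 0, 0, 0, 0, 0, 0], 1, 3, [0, 0, 0, 0, 0, 0, 0, 0, 0, 0, 0, 0, 0, 160], []⟩]),
  (0, [⟨[257], 1, 1, [1], [-1, -1, 0, 0, 0, 0, 1]⟩, ⟨[173], 1, 1, [1], [-1, 0, -1, 1, 0, 0, 1]⟩, ⟨[124], 1, 1, [1], [-1, 0, 1, 0, 0, 0, 0, 1]⟩, ⟨[106, 244, 154, 20], 1, 3, [59, 47, 23], []⟩, ⟨[108, 244, 264, 104], 1, 3, [196, 47, 79], []⟩, ⟨[63, 244, 136, 153], 1, 3, [22, 47, 175], []⟩]),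
  (0, [⟨[119, 0, 0, 0, 0], 1, 3, [0, 0, 0, 61], []⟩, ⟨[170, 0, 0, 0, 0, 162, 0, 0, 0, 0], 1, 3, [0, 0, 0, 86, 0, 0, 0, 0, 135], []⟩]),
  (0, [⟨[39], 1, 1, [1], [0, 1, -1, 1, 0, -1, 0, -1]⟩, ⟨[226], 1, 1, [1], [0, -1, 0, 0, 0, 0, 0, 0, 1, 0, -1]⟩, ⟨[18], 1, 1, [1], [-1, 1, 0, 0, 1]⟩, ⟨[17, 111, 242, 265], 1, 3, [156, 103, 0, 187], []⟩, ⟨[84, 111, 177, 244], 1, 3, [55, 103, 0, 75], []⟩, ⟨[182, 111, 147, 57], 1, 3, [72, 103, 0, 21], []⟩]),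
  (7, []),
  (17, []),
  (0, [⟨[30], 1, 1, [1], [-1, 0, 0, -1, 0, 1]⟩, ⟨[272, 263], 1, 2, [140, 107], [1, 0, 0, -1, 0, 0, 1, 0, 0, -2]⟩, ⟨[145, 269, 42, 73], 1, 3, [26, 292, 195, 84], []⟩, ⟨[145, 68, 42, 250], 1, 3, [197, 21, 102, 170], []⟩, ⟨[145, 249, 272, 263], 1, 3, [120, 4, 0, 168], []⟩]),
  (13, []),
  (7, []),
  (0, [⟨[197], 1, 1, [1], [1, 0, 0, 0, 1, 0, 0, 0, 0, 0, 1]⟩, ⟨[279], 1, 1, [1], [-1, 0, 0, 0, 0, 0, 1, 0, 1]⟩, ⟨[138], 1, 1, [1], [1, -1, 0, 1, 0, 1]⟩, ⟨[265, 155, 137, 28], 1, 3, [13, 82, 38], []⟩, ⟨[207, 155, 297, 169], 1, 3, [221, 82, 237], []⟩, ⟨[142, 155, 180, 110], 1, 3, [73, 82, 32], []⟩]),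
  (0, [⟨[45, 0, 0, 0, 0], 1, 3, [0, 0, 0, 236], []⟩, ⟨[152, 0, 0, 0, 0, 266, 0, 0, 0, 0], 1, 3, [0, 0, 0, 29, 0, 0, 0, 0, 83], []⟩]),
  (0, [⟨[173, 0, 0], 1, 3, [0, 117], []⟩, ⟨[237, 0, 0, 242, 0, 0, 119, 0, 0, 140, 0, 0], 1, 3, [0, 231, 0, 0, 157, 0, 0, 3, 0, 0, 166], []⟩]),
  (0, [⟨[140], 1, 1, [1], [1, -1, -1, 0, 0, 0, 1]⟩, ⟨[54, 177], 1, 2, [277, 90], [1, 0, -1, 1, -1, 0, 0, -1, 0, 0, 1, 1]⟩, ⟨[254, 99, 209, 89], 1, 3, [8, 128, 255, 22], []⟩, ⟨[254, 266, 209, 51], 1, 3, [215, 242, 218, 80], []⟩, ⟨[254, 269, 54, 177], 1, 3, [263, 70, 1], []⟩]),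
  (11, []),
  (17, []),
  (7, []),
  (0, [⟨[2, 0, 0, 0, 0, 0, 0, 0, 0, 0, 0, 0, 0, 0, 0], 1, 3, [0, 0, 0, 0, 0, 0, 0, 0, 0, 0, 0, 0, 0, 266], []⟩]),
  (0, [⟨[316, 0, 0], 1, 3, [0, 230], []⟩, ⟨[305, 0, 0, 162, 0, 0, 233, 0, 0, 21, 0, 0], 1, 3, [0, 16, 0, 0, 0, 0, 0, 84, 0, 0, 162], []⟩]),
  (11, []),
  (7, []),
  (0, [⟨[86], 1, 1, [1], [-1, 0, -1, -1, -1, 1]⟩, ⟨[238, 261], 1, 2, [308, 104], [-1, -1, -1, 1, 1, 0, 0, 0, 0, 0, -1, 0, 0, 0, 1]⟩, ⟨[264, 27, 218, 38], 1, 3, [105, 280, 235, 59], []⟩, ⟨[264, 342, 238, 261], 1, 3, [7, 111, 51], []⟩, ⟨[264, 325, 218, 48], 1, 3, [172, 138, 158, 309], []⟩]),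
  (0, [⟨[209, 0, 0], 1, 3, [0, 290], []⟩, ⟨[293, 0, 0, 267, 0, 0], 1, 3, [0, 119, 0, 0, 84], []⟩, ⟨[293, 0, 0, 222, 0, 0], 1, 3, [0, 141, 0, 0, 29], []⟩]),
  (0, [⟨[345], 1, 1, [1], [1, -1, 0, -1, 0, 0, 0, 0, 1]⟩, ⟨[289, 8], 1, 2, [250, 114], [1, 0, 0, 0, 0, 0, -1, 0, 0, 2]⟩, ⟨[140, 251, 128, 137], 1, 3, [290, 197, 279, 121], []⟩, ⟨[140, 159, 289, 8], 1, 3, [246, 234, 0, 22], []⟩, ⟨[140, 296, 128, 208], 1, 3, [267, 267, 79, 342], []⟩]),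
  (0, [⟨[147], 1, 1, [1], [1, 0, 1, 0, -1, 0, 1]⟩, ⟨[290, 234], 1, 2, [185, 204], [-1, 1, 0, -2, 0, 0, 0, 0, 0, 0, -1, 0, 0, 1]⟩, ⟨[290, 270], 1, 2, [348, 149], [-1, -1, 0, -1, 1, 0, 0, 0, 0, -1, 1, 1]⟩, ⟨[290, 114], 1, 2, [10, 88], [-1, -2, 1, -2, 0, -1, 0, 0, 1, -1]⟩, ⟨[290, 357], 1, 2, [66, 66], [-1, -1, 0, -2, -1, 1, 0, 0, 0, 1]⟩, ⟨[290, 247], 1, 2, [114, 220], [-1, 1, 0, 0, 0, 0, 0, 0, 0, 0, 0, 1, 1]⟩, ⟨[290, 214], 1, 2, [61, 241], [1, 0, 0, -2, 1, 1]⟩, ⟨[290, 212], 1, 2, [162, 222], [-1, 0, -1, -1, 0, -2, 0, 1, 0, 1]⟩]),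
  (19, []),
  (0, [⟨[67, 0, 0], 1, 3, [0, 42], []⟩, ⟨[115, 0, 0, 177, 0, 0, 282, 0, 0, 300, 0, 0], 1, 3, [0, 126, 0, 0, 0, 0, 0, 267, 0, 0, 339], []⟩]),
  (7, []),
  (0, [⟨[230, 0, 0], 1, 3, [0, 353], []⟩, ⟨[120, 0, 0, 260, 0, 0, 66, 0, 0, 143, 0, 0], 1, 3, [0, 238, 0, 0, 253, 0, 0, 359, 0, 0, 192], []⟩]),
  (13, []),
  (0, [⟨[273, 0, 0], 1, 3, [0, 87], []⟩, ⟨[134, 0, 0, 260, 0, 0], 1, 3, [0, 156, 0, 0, 17], []⟩, ⟨[134, 0, 0, 225, 0, 0], 1, 3, [0, 197, 0, 0, 106], []⟩]),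
  (0, [⟨[276], 1, 1, [1], [-1, 1, 1, 0, 1]⟩, ⟨[41, 107], 1, 2, [278, 274], [-1, 1, 0, -2, 0, -1, 0, 0, 0, 1, 0, 1]⟩, ⟨[234, 182, 301, 159], 1, 3, [206, 195, 326, 108], []⟩, ⟨[234, 209, 41, 107], 1, 3, [312, 151, 0, 45], []⟩, ⟨[234, 375, 301, 117], 1, 3, [37, 177, 165, 117], []⟩]),
  (0, [⟨[366], 1, 1, [1], [-1, -1, 0, -1, 0, 0, 0, 0, 0, 1]⟩, ⟨[249, 23], 1, 2, [62, 113], [-1, 0, 1, 0, 0, 1, 0, -1, 1, -1, 1]⟩, ⟨[249, 384], 1, 2, [40, 16], [1, -1, 0, 0, 0, 0, 0, 1, 0, 1, 0, 0, -1, 1]⟩, ⟨[249, 28], 1, 2, [146, 323], [2, 0, -1, 1, 0, 0, 0, 1, 1, 0, 0, -1]⟩, ⟨[249, 232], 1, 2, [381, 322], [-1, 0, -1, -2, 1, 0, -1, 0, 0, 1]⟩, ⟨[249, 129], 1, 2, [222, 277], [1, 0, 0, -1, 0, 0, 0, 0, 0, 1, 0, 1, 0, 0, 1]⟩, ⟨[249,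 6], 1, 2, [242, 49], [-1, 1, 0, -1, 1, -1, 1, 0, 0, 0, 0, 1]⟩, ⟨[249, 388], 1, 2, [254, 119], [1, 0, 0, 0, 1, 1, 0, 0, 0, -1, 0, 1, 0, 1]⟩]),
  (17, []),
  (0, [⟨[272], 1, 1, [1], [1, 1, 0, 0, 0, 0, 1]⟩, ⟨[8], 1, 1, [1], [-1, 0, 1, 0, 0, 0, 0, 0, 0, 0, 0, 1]⟩, ⟨[117], 1, 1, [1], [2, -1, 0, 1]⟩, ⟨[43, 282, 206, 280], 1, 3, [360, 368, 349], []⟩, ⟨[271, 282, 333, 389], 1, 3, [330, 368, 92], []⟩, ⟨[83, 282, 255, 125], 1, 3, [104, 368, 353], []⟩])] (by decide +kernel)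

theorem a3 : CovA fl 30 1373170 m 2 ρ 400 (400 + 300) := covA _ _ _ _ _ _ _ _
  [(0, [⟨[103, 0, 0, 0, 0], 1, 3, [0, 0, 0, 11], []⟩, ⟨[218, 0, 0, 0, 0, 298, 0, 0, 0, 0], 1, 3, [0, 0, 0, 38, 0, 0, 0, 0, 62], []⟩]),
  (13, []),
  (11, []),
  (0, [⟨[368, 0, 0], 1, 3, [0, 133], []⟩, ⟨[364, 0, 0, 13, 0, 0], 1, 3, [0, 39, 0, 0, 367], []⟩, ⟨[364, 0, 0, 28, 0, 0], 1, 3, [0, 118, 0, 0, 395], []⟩]),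
  (7, []),
  (0, [⟨[376], 1, 1, [1], [-1, 0, 0, -1, 0, 0, 0, 1]⟩, ⟨[246, 360], 1, 2, [207, 355], [-1, 0, -1, -1, 1, -1, 0, 1, 1]⟩, ⟨[246, 358], 1, 2, [414, 96], [1, 0, 0, -1, 1, 0, 0, 0, 0, 1, -1, 0, 1]⟩, ⟨[246, 413], 1, 2, [244, 221], [1, 2, 0, 1, 1, -1, 0, 1, 0, 0, 0, 1, -1]⟩, ⟨[246, 83], 1, 2, [80, 200], [-1, 0, -1, -1, 0, 0, 1, 1, 0, 0, 1, 1]⟩, ⟨[246, 65], 1, 2, [255, 250], [-1, 1, 0, 1, 0, 1, 0, 0, 0, -1, 1]⟩, ⟨[246, 43], 1, 2, [406, 176], [-1, 0, 0, 0, 1, 0, -1, 1, 0, 0, 0, 1]⟩, ⟨[246, 397], 1, 2, [125, 278], [1, -1, -1, -2, 0, 0, -1, 1, 0, 0, 0, 1]⟩]),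
  (0, [⟨[2, 0, 0, 0, 0, 0, 0, 0, 0, 0, 0, 0, 0, 0, 0], 1, 3, [0, 0, 0, 0, 0, 0, 0, 0, 0, 0, 0, 0, 0, 63], []⟩]),
  (7, []),
  (0, [⟨[53], 1, 1, [1], [1, 0, 0, -1, 0, 1, 0, 1]⟩, ⟨[294], 1, 1, [1], [1, 0, 0, 0, 0, 1, 0, 0, 1]⟩, ⟨[114], 1, 1, [1], [1, 0, -1, 0, 1, 0, 1]⟩, ⟨[346], 1, 1, [1], [1, -1, 0, 0, 0, 0, 1]⟩, ⟨[55], 1, 1, [1], [-1, 0, -1, 1]⟩, ⟨[102, 85], 1, 2, [120, 200], [-1, -1, 2, 0, 0, 0, -1, 0, 0, 0, 0, 0, 0, 0, 1]⟩, ⟨[365, 317], 1, 2, [92, 357], [1, 0, 0, -2, 0, 0, -2]⟩, ⟨[423, 376], 1, 2, [128, 36], [1, 0, -1, -2, 1, 1, 1]⟩, ⟨[195, 137], 1, 2, [194, 403], [1, 0, 0, 0, 1, -1, 0, 0, -1, 0, -1, 0, 0, 1]⟩, ⟨[208, 378], 1, 2, [328, 297], [-1, 0, 0, 0, 0, 0, 0, 0, 0, 2, 0, 0, 1]⟩]),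
  (0, [⟨[351], 1, 1, [1], [-1, -1, 1, 0, 0, 1, 0, 1]⟩, ⟨[297], 1, 1, [1], [1, 0, -1, 0, 0, 1, 0, 1]⟩, ⟨[218], 1, 1, [1], [-1, 0, 0, 0, 0, 1, 0, 1]⟩, ⟨[22, 159, 106, 215], 1, 3, [308, 61, 0, 370], []⟩, ⟨[26, 159, 123, 136], 1, 3, [364, 61, 0, 83], []⟩, ⟨[385, 159, 204, 82], 1, 3, [194, 61, 0, 413], []⟩]),
  (19, []),
  (0, [⟨[400], 1, 1, [1], [2, -1, 0, 0, 0, 1]⟩, ⟨[355], 1, 1, [1], [1, 1, 0, 1, 0, 0, 0, 0, 0, 1]⟩, ⟨[123], 1, 1, [1], [-1, 1, 0, -1, 0, 0, 0, 0, -1]⟩, ⟨[236, 170], 1, 2, [308, 110], [1, -1, 0, 0, 0, -1, 0, -1, 0, -1, 0, 0, 0, -1]⟩, ⟨[407, 350], 1, 2, [174, 290], [-1, 1, 1, 0, -1, 1, 0, 1]⟩, ⟨[235, 382], 1, 2, [341, 166], [1, 0, 0, 0, -1, 0, 0, 0, -1, 0, -1, 0, 1]⟩, ⟨[407, 173], 1, 2, [427,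 396], [-1, 1, 1, 0, 0, 0, 1, -1, -1, 1, 1]⟩, ⟨[236, 146], 1, 2, [363, 422], [-1, 0, 1, 1, 0, 0, 0, 0, -1, 0, 1, 0, 0, 0, 1]⟩, ⟨[235, 96], 1, 2, [143, 372], [1, 0, 1, 0, 1, -1, 0, 1, -1, 1]⟩]),
  (0, [⟨[159], 1, 1, [1], [-1, 0, 0, -1, 0, 1, 0, 1]⟩, ⟨[413, 284], 1, 2, [430, 128], [1, 1, 0, -1, -1, 1, 0, -1, -1, 1]⟩, ⟨[429, 103, 413, 284], 1, 3, [127, 363, 0, 435], []⟩, ⟨[429, 22, 60, 365], 1, 3, [210, 374, 377, 57], []⟩, ⟨[429, 318, 60, 237], 1, 3, [159, 112, 193, 346], []⟩]),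
  (0, [⟨[440], 1, 1, [1], [1, 0, 0, 0, -1, 0, 1]⟩, ⟨[368, 225], 1, 2, [190, 138], [1, 0, -1, 2, 0, 0, 0, 0, 0, 0, 0, 0, 1]⟩, ⟨[368, 9], 1, 2, [133, 170], [-1, 0, 1, 0, -1, 0, -1, 0, 1, 0, 0, 0, 0, 0, 1]⟩, ⟨[368, 147], 1, 2, [398, 74], [-1, 2, -1, 0, 1, 0, 0, 1]⟩, ⟨[368, 230], 1, 2, [68, 261], [1, 0, 1, -1, 1, 0, -1, 1, 1, 0, -1]⟩, ⟨[368, 311], 1, 2, [1, 436], [-1, 1, -1, 0, 0, -1, 0, 1, 0, 0, 1]⟩, ⟨[368, 77], 1, 2, [319, 120], [2, 1, 0, 0, 0, -1, -1, 0, -1, 0, 0, 0, -1]⟩, ⟨[368, 357], 1, 2, [370, 418], [-1, -1, 0, 0, 0, -1, 1, 0, 0, 0, 0, -1, 1]⟩]),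
  (11, []),
  (0, [⟨[310], 1, 1, [1], [-1, 0, 1, 0, 0, 1, 0, 0, -1]⟩, ⟨[47], 1, 1, [1], [-1, 0, 0, 0, -1, -1, 0, 1]⟩, ⟨[100], 1, 1, [1], [-1, -2, 0, 0, 0, 0, 1]⟩, ⟨[9, 373, 327, 147], 1, 3, [412, 210, 193], []⟩, ⟨[283, 373, 54, 357], 1, 3, [413, 210, 187], []⟩, ⟨[165, 373, 76, 410], 1, 3, [89, 210, 77], []⟩]),
  (0, [⟨[35, 0, 0, 0, 0], 1, 3, [0, 0, 0, 396], []⟩, ⟨[158, 0, 0, 0, 0, 426, 0, 0, 0, 0], 1, 3, [0, 0, 0, 423, 0, 0, 0, 0, 258], []⟩]),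
  (0, [⟨[50, 0, 0], 1, 3, [0, 71], []⟩, ⟨[37, 0, 0, 10, 0, 0, 278, 0, 0, 413, 0, 0], 1, 3, [0, 343, 0, 0, 115, 0, 0, 461, 0, 0, 326], []⟩]),
  (0, [⟨[18], 1, 1, [1], [-1, 0, -1, -1, 0, 1]⟩, ⟨[143, 449], 1, 2, [320, 295], [-1, 0, 0, 1, 0, 1, -1, -1, 1, 0, 1]⟩, ⟨[99, 239, 143, 449], 1, 3, [290, 34, 367], []⟩, ⟨[99, 63, 181, 394], 1, 3, [35, 405, 162, 204], []⟩, ⟨[99, 165, 181, 91], 1, 3, [334, 103, 88, 24], []⟩]),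
  (7, []),
  (11, []),
  (0, [⟨[392], 1, 1, [1], [-1, 0, -1, 0, 0, 1]⟩, ⟨[95, 282], 1, 2, [126, 366], [1, -1, -1, 0, 0, 0, 1, -1, 0, 0, -1, 1]⟩, ⟨[95, 81], 1, 2, [461, 373], [-1, 1, -1, 0, 0, 0, 0, 1, 0, 1, -1, 0, 0, 1]⟩, ⟨[95, 284], 1, 2, [364, 355], [-1, 0, 3, -1, 1, 0, 0, 0, 0, -1]⟩, ⟨[95, 87], 1, 2, [323, 400], [1, 0, 1, 1, -1, 0, 1, 1, 0, 1, 0, 0, 1]⟩, ⟨[95, 16], 1, 2, [473, 360], [1, -2, 0, -2, 0, 1, 0, 1, 0, 0, 0, 0, 1]⟩, ⟨[95, 116], 1, 2, [294, 61], [1, -1, 1, 0, 1, -1, 0, 0, 0, -1, -1, 0, 1]⟩, ⟨[95, 179], 1, 2, [297, 184], [1, 0, -2, 0, -1, 0, 2, -1, 1]⟩]),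
  (13, []),
  (0, [⟨[162, 0, 0], 1, 3, [0, 486], []⟩, ⟨[6, 0, 0, 469, 0, 0, 54, 0, 0, 325, 0, 0], 1, 3, [0, 484, 0, 0, 0, 0, 0, 420, 0, 0, 367], []⟩]),
  (0, [⟨[384, 0, 0, 0, 0], 1, 3, [0, 0, 0, 163], []⟩, ⟨[335, 0, 0, 0, 0, 107, 0, 0, 0, 0], 1, 3, [0, 0, 0, 132, 0, 0, 0, 0, 144], []⟩]),
  (17, []),
  (7, []),
  (0, [⟨[266], 1, 1, [1], [-1, -1, -1, 0, 0, 0, 1]⟩, ⟨[185], 1, 1, [1], [1, 1, 0, 1]⟩, ⟨[48], 1, 1, [1], [-1, -1, 1, -1, 1]⟩, ⟨[191, 273], 1, 2, [307, 303], [-1, -1, 1, -1, 0, 0, 0, 1, -1, 0, 0, 1]⟩, ⟨[206, 291], 1, 2, [271, 17], [-1, 0, 0, 1, 0, -2, -1, 0, 0, 0, 0, 0, 1]⟩, ⟨[206, 23], 1, 2, [433, 201], [2, 1, 0, 1, 0, -1, 0, -1, 0, -1, 0, 0, 1]⟩, ⟨[102, 203], 1, 2, [258, 494], [-1, -1, -2, 0,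 0, 2, 1, 1, 0, 1]⟩, ⟨[102, 30], 1, 2, [483, 367], [-1, 0, 0, 0, 0, 1, 0, -1, 0, 0, -1, -1, 0, 1]⟩, ⟨[191, 178], 1, 2, [244, 115], [1, -1, 1, 1, 0, 0, 1, -1, -1, 0, 0, 0, 1]⟩]),
  (0, [⟨[78], 1, 1, [1], [-1, 0, 0, -1, 1, 0, 1]⟩, ⟨[455, 425], 1, 2, [273, 7], [1, -1, 0, 0, -1, -1, 1, 1, 0, 1]⟩, ⟨[211, 405, 96, 101], 1, 3, [152, 69, 398, 105], []⟩, ⟨[211, 280, 455, 425], 1, 3, [153, 60, 0, 381], []⟩, ⟨[211, 321, 96, 480], 1, 3, [47, 231, 12, 291], []⟩]),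
  (0, [⟨[250], 1, 1, [1], [-1, -1, 0, 0, 1]⟩, ⟨[107, 486], 1, 2, [476, 484], [-1, 0, -1, 0, 0, 0, 0, 1, -1, 0, -1, 1]⟩, ⟨[107, 40], 1, 2, [504, 382], [-1, 0, 0, 1, 0, 0, -1, 0, 0, 1, 0, 1, 0, -1]⟩, ⟨[107, 12], 1, 2, [388, 105], [-1, 0, 0, 0, 0, 0, 0, 1, 1, 1, 0, 0, 0, 1]⟩, ⟨[107, 457], 1, 2, [169, 261], [-1, 0, 0, 0, 0, 1, 0, 1, -1, 0, 0, 1, 0, 1]⟩, ⟨[107, 259], 1, 2, [245, 287], [1, -1, 1, 1, 0, -1, 0, 1, -1, 0, 0, 1]⟩, ⟨[107, 313], 1, 2, [266, 439], [-1, -2, 0, -1, 0, -1, 0, 1, 0, 0, 1, 1]⟩, ⟨[107, 219], 1, 2, [231, 479], [1, -1, -1, -1, 1, -1, -1, 0, 1, 1]⟩]),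
  (7, []),
  (11, []),
  (0, [⟨[225, 0, 0, 0, 0], 1, 3, [0, 0, 0, 505], []⟩, ⟨[433, 0, 0, 0, 0, 296, 0, 0, 0, 0], 1, 3, [0, 0, 0, 340, 0, 0, 0, 0, 375], []⟩]),
  (0, [⟨[353, 0, 0], 1, 3, [0, 161], []⟩, ⟨[80, 0, 0, 461, 0, 0, 388, 0, 0, 170, 0, 0], 1, 3, [0, 428, 0, 0, 260, 0, 0, 522, 0, 0, 300], []⟩]),
  (17, []),
  (23, []),
  (13, []),
  (7, []),
  (0, [⟨[2, 0, 0, 0, 0, 0, 0, 0, 0, 0, 0, 0, 0, 0, 0], 1, 3, [0, 0, 0, 0, 0, 0, 0, 0, 0, 0, 0, 0, 0, 386], []⟩]),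
  (0, [⟨[221, 0, 0], 1, 3, [0, 514], []⟩, ⟨[198, 0, 0, 90, 0, 0, 389, 0, 0, 326, 0, 0], 1, 3, [0, 448, 0, 0, 0, 0, 0, 122, 0, 0, 428], []⟩]),
  (19, []),
  (7, []),
  (0, [⟨[526], 1, 1, [1], [-2, 0, -1, 0, 0, 0, 0, 1]⟩, ⟨[153, 31], 1, 2, [551, 216], [-1, -1, -1, 1, 0, -1, 0, 2, 1]⟩, ⟨[542, 280, 251, 40], 1, 3, [496, 115, 184, 394], []⟩, ⟨[542, 270, 153, 31], 1, 3, [316, 498, 453], []⟩, ⟨[542, 7, 251, 486], 1, 3, [243, 17, 76, 393], []⟩]),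
  (13, []),
  (0, [⟨[165], 1, 1, [1], [-1, 1, 0, 0, -1, 0, 0, 1]⟩, ⟨[362, 398], 1, 2, [356, 366], [-1, 1, 1, 0, 1, 0, 1, 0, 0, 1, 0, 1]⟩, ⟨[135, 484, 402, 185], 1, 3, [279, 276, 436, 174], []⟩, ⟨[135, 52, 362, 398], 1, 3, [335, 275, 0, 273], []⟩, ⟨[135, 27, 402, 543], 1, 3, [354, 536, 177, 65], []⟩]),
  (0, [⟨[239], 1, 1, [1], [1, 1, 1, -1, 0, 0, 0, 1]⟩, ⟨[348, 529], 1, 2, [321, 329], [-1, -1, 0, 0, -1, 0, -1, 0, 1, 0, 1]⟩, ⟨[348, 431], 1, 2, [74, 166], [-2, -2, 1, 0, -1, -1, -1, 0, 1]⟩, ⟨[348, 75], 1, 2, [172, 3], [1, 1, 0, -1, -1, 0, 1, 0, -1, 0, 0, 0, 1]⟩, ⟨[348, 330], 1, 2, [396, 339], [-3, 0, 0, 0, 0, 0, -1, 0, 0, 1]⟩, ⟨[348, 354], 1, 2, [211, 391], [1, -1, 0, 1, 0, 0, 1, 0, -1, 1, 0, -1]⟩, ⟨[348,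 63], 1, 2, [363, 422], [1, 0, 0, 0, 1, -1, -1, 1, -1, -1, 1]⟩, ⟨[348, 255], 1, 2, [447, 445], [-1, 0, 0, 0, 0, 0, 1, 1, 0, -1, 0, 0, 0, 1, 1]⟩]),
  (0, [⟨[338, 0, 0], 1, 3, [0, 513], []⟩, ⟨[488, 0, 0], 1, 3, [0, 133], []⟩, ⟨[426, 0, 0], 1, 3, [0, 21], []⟩, ⟨[47, 0, 0], 1, 3, [0, 81], []⟩, ⟨[414, 0, 0], 1, 3, [0, 394], []⟩]),
  (0, [⟨[108, 0, 0], 1, 3, [0, 447], []⟩, ⟨[203, 0, 0, 456, 0, 0, 453, 0, 0, 469, 0, 0], 1, 3, [0, 187, 0, 0, 0, 0, 0, 574, 0, 0, 38], []⟩]),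
  (7, []),
  (11, []),
  (0, [⟨[259], 1, 1, [1], [1, 0, 1, 0, 0, -1, 0, 1]⟩, ⟨[424, 328], 1, 2, [207, 575], [3, 0, 0, -1, 0, 0, 0, 0, 0, 0, 0, 0, 1]⟩, ⟨[433, 47, 424, 328], 1, 3, [242, 5, 340], []⟩, ⟨[433, 261, 326, 261], 1, 3, [387, 193, 33, 414], []⟩, ⟨[433, 279, 326, 585], 1, 3, [128, 194, 291, 408], []⟩]),
  (19, []),
  (0, [⟨[561], 1, 1, [1], [1, 0, 0, 1, 1]⟩, ⟨[162, 32], 1, 2, [105, 327], [1, 0, 0, 2, -1, 0, 1, -1, 1]⟩, ⟨[441, 565, 269, 63], 1, 3, [567, 535, 29, 147], []⟩, ⟨[441, 153, 162, 32], 1, 3, [276, 362, 0, 169], []⟩, ⟨[441, 468, 269, 498], 1, 3, [242, 89, 447, 105], []⟩]),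
  (0, [⟨[326], 1, 1, [1], [-1, 0, -1, 0, -1, 1]⟩, ⟨[346, 348], 1, 2, [313, 160], [1, 0, -1, 0, -1, 0, -1, 0, 0, 1, 0, 1]⟩, ⟨[346, 236], 1, 2, [39, 421], [1, -1, 0, 0, 0, 0, 1, -1, -1, 0, 1, 0, 0, 1]⟩, ⟨[346, 37], 1, 2, [334, 500], [-1, -2, 1, 1, 0, -1, -1, 0, 0, 1, 0, 0, 1]⟩, ⟨[346, 12], 1, 2, [403, 432], [1, 1, 0, -1, 0, -1, 0, -1, 1, 0, -1, 1]⟩, ⟨[346, 273], 1, 2, [324, 307], [1, 0, 0, -1, 0, 0, 2, 0, 0, 1, 0, 0, -1]⟩, ⟨[346, 550], 1, 2, [213, 461], [-1, 0, 1, 1, -1, 0, 0, 0, 0, 1, 0, 1, 0, 1]⟩, ⟨[346, 15], 1, 2, [258, 325], [-1, -2, 1, 2, -1, 1, 0, 0, 1]⟩]),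
  (0, [⟨[94, 0, 0, 0, 0], 1, 3, [0, 0, 0, 410], []⟩, ⟨[453, 0, 0, 0, 0], 1, 3, [0, 0, 0, 568], []⟩, ⟨[54, 0, 0, 0, 0], 1, 3, [0, 0, 0, 224], []⟩]),
  (0, [⟨[583, 0, 0], 1, 3, [0, 59], []⟩, ⟨[253, 0, 0, 470, 0, 0, 31, 0, 0, 24, 0, 0], 1, 3, [0, 177, 0, 0, 0, 0, 0, 68, 0, 0, 92], []⟩]),
  (13, []),
  (0, [⟨[236, 0, 0], 1, 3, [0, 342], []⟩, ⟨[400, 0, 0, 303, 0, 0, 87, 0, 0, 377, 0, 0], 1, 3, [0, 273, 0, 0, 36, 0, 0, 281, 0, 0, 558], []⟩]),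
  (0, [⟨[226], 1, 1, [1], [-1, 0, -1, 0, 0, 0, 0, 0, 0, 1]⟩, ⟨[135, 391], 1, 2, [263, 390], [1, 0, 1, 2, -1, 0, 1, 0, 0, 0, 0, -1]⟩, ⟨[285, 277, 135, 391], 1, 3, [383, 237, 84], []⟩, ⟨[285, 526, 347, 399], 1, 3, [25, 313, 386, 371], []⟩, ⟨[285, 431, 347, 444], 1, 3, [464, 79, 21, 399], []⟩]),
  (0, [⟨[286, 0, 0], 1, 3, [0, 259], []⟩, ⟨[531, 0, 0, 449, 0, 0], 1, 3, [0, 197, 0, 0, 236], []⟩, ⟨[531, 0, 0, 503, 0, 0], 1, 3, [0, 361, 0, 0, 150], []⟩]),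
  (7, []),
  (17, []),
  (0, [⟨[2, 0, 0, 0, 0, 0, 0, 0, 0, 0, 0, 0, 0, 0, 0], 1, 3, [0, 0, 0, 0, 0, 0, 0, 0, 0, 0, 0, 0, 0, 85], []⟩]),
  (7, []),
  (0, [⟨[137], 1, 1, [1], [-1, 1, 0, -1, -1, 1]⟩, ⟨[74], 1, 1, [1], [1, 0, 0, 0, 0, 0, 0, 0, 1, 0, 0, 0, 1]⟩, ⟨[564], 1, 1, [1], [-1, 0, 0, 0, 0, 0, 0, -1, 0, 1]⟩, ⟨[314], 1, 1, [1], [-1, 0, 0, 1, 0, 1]⟩, ⟨[193], 1, 1, [1], [1, 0, 0, -1, 0, 0, 0, 0, 0, 0, 1]⟩, ⟨[118, 327], 1, 2, [115, 507], [1, 0, 0, -2, 0, 1, 1, 0, -1, 0, 1]⟩, ⟨[293, 567], 1, 2, [436, 237], [3, 0, 0, -2, 0, 0, 1, 0, 0, 1]⟩, ⟨[461, 504], 1, 2, [170, 330], [1, 0, -1, 0, 1, -2, 0, 0, -1, 0, 0, 0, 0, -1]⟩, ⟨[481, 77], 1, 2, [530, 211], [-3, 0, 0, -1, 0, 0, -1, 0, 0, 1]⟩, ⟨[570, 448], 1, 2, [31,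 638], [1, 1, 0, 1, -1, 0, 1, 0, 0, 0, 0, -1, 1]⟩]),
  (0, [⟨[52], 1, 1, [1], [-1, 1, 0, 0, 0, 0, 0, 0, 0, 0, 0, 1]⟩, ⟨[389], 1, 1, [1], [-1, 2, 0, 0, 0, 1]⟩, ⟨[202], 1, 1, [1], [1, -1, -1, 0, -1, 1]⟩, ⟨[423, 209, 348, 441], 1, 3, [313, 635, 0, 377], []⟩, ⟨[283, 209, 427, 254], 1, 3, [103, 635, 0, 500], []⟩, ⟨[580, 209, 511, 591], 1, 3, [227, 635, 0, 409], []⟩]),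
  (0, [⟨[588], 1, 1, [1], [1, 0, 0, 1, -1, 0, 0, 0, 1]⟩, ⟨[401, 59], 1, 2, [106, 128], [-1, 1, 1, 0, 0, 1, 1, 0, -1, 0, 0, 1, 1]⟩, ⟨[302, 280, 401, 59], 1, 3, [182, 470, 6], []⟩, ⟨[302, 213, 492, 453], 1, 3, [393, 31, 383, 9], []⟩, ⟨[302, 154, 492, 135], 1, 3, [375, 579, 249, 143], []⟩]),
  (11, []),
  (0, [⟨[229], 1, 1, [1], [1, 1, 0, 0, -1, 0, 0, 0, 0, 0, 0, 1]⟩, ⟨[452, 424], 1, 2, [557, 444], [-1, 0, 1, 0, 0, 1, 1, -1, 1, 1, 0, 0, 0, 1]⟩, ⟨[85, 312, 402, 91], 1, 3, [67, 118, 457, 395], []⟩, ⟨[85, 7, 402, 138], 1, 3, [521, 56, 557, 514], []⟩, ⟨[85, 334, 452, 424], 1, 3, [525, 296, 0, 443], []⟩]),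
  (0, [⟨[231], 1, 1, [1], [1, 0, 0, 0, 0, 0, 0, 1, 1]⟩, ⟨[18, 185], 1, 2, [120, 159], [1, 0, 0, 0, -1, -1, 1, 1, 0, 0, -1, 0, 0, 1]⟩, ⟨[18, 358], 1, 2, [251, 98], [1, 2, 0, 0, 1, 0, -1, 1, -1, 0, 0, 1]⟩, ⟨[18, 70], 1, 2, [505, 268], [-2, -1, 0, 0, 1, -1, 0, 1, 1, 0, 0, 0, 1]⟩, ⟨[18, 639], 1, 2, [497, 511], [1, -1, 0, 0, 0, 2, -1, 0, 1, -1, 0, 0, 0, 0, 1]⟩, ⟨[18, 428], 1, 2, [252, 122], [-2, 1, -2, 0, 0, 0, 0, 0, 1, 1]⟩, ⟨[18, 609], 1, 2, [598, 103], [-1, 0, -1, 0, 0, 0, 0, 0, 0, 0, 1, 1]⟩, ⟨[18, 116], 1, 2, [220, 178], [1, 1, 0, -1, 1, 0, 1, 1, -1, 0, 1]⟩]),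
  (0, [⟨[2, 0, 0, 0, 0, 0, 0, 0, 0, 0, 0, 0, 0, 0, 0], 1, 3, [0, 0, 0, 0, 0, 0, 0, 0, 0, 0, 0, 0, 0, 486], []⟩]),
  (23, []),
  (11, []),
  (0, [⟨[641, 0, 0], 1, 3, [0, 7], []⟩, ⟨[631, 0, 0, 464, 0, 0, 322, 0, 0, 32, 0, 0], 1, 3, [0, 639, 0, 0, 296, 0, 0, 324, 0, 0, 663], []⟩]),
  (0, [⟨[524], 1, 1, [1], [1, 0, 0, 0, 1, 0, 0, 0, 0, 1]⟩, ⟨[286, 153], 1, 2, [618, 576], [1, -2, 0, -1, 0, 0, 1, -1, 0, -1, 0, 1]⟩, ⟨[121, 547, 105, 462], 1, 3, [216, 87, 3, 521], []⟩, ⟨[121, 247, 286, 153], 1, 3, [196, 256, 94], []⟩, ⟨[121, 560, 105, 62], 1, 3, [532, 505, 439, 399], []⟩]),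
  (7, []),
  (0, [⟨[8], 1, 1, [1], [1, 0, 0, 0, 0, 0, 0, 0, 0, 0, 0, 1]⟩, ⟨[619, 675], 1, 2, [370, 434], [1, 0, 0, 0, 0, 0, 0, 2, 0, 0, 0, -1]⟩, ⟨[2, 566, 128, 362], 1, 3, [503, 47, 153, 425], []⟩, ⟨[2, 629, 128, 329], 1, 3, [340, 632, 527, 642], []⟩, ⟨[2, 171, 619, 675], 1, 3, [540, 409, 0, 350], []⟩]),
  (13, []),
  (0, [⟨[94, 0, 0, 0, 0], 1, 3, [0, 0, 0, 208], []⟩, ⟨[288, 0, 0, 0, 0], 1, 3, [0, 0, 0, 375], []⟩, ⟨[309, 0, 0, 0, 0], 1, 3, [0, 0, 0, 108], []⟩]),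
  (17, [])] (by decide +kernel)

theorem a4 : CovA fl 30 1373170 m 2 ρ 700 (700 + 472) := covA _ _ _ _ _ _ _ _
  [(0, [⟨[285, 0, 0, 0, 0], 1, 3, [0, 0, 0, 312], []⟩, ⟨[91, 0, 0, 0, 0, 416, 0, 0, 0, 0], 1, 3, [0, 0, 0, 35, 0, 0, 0, 0, 314], []⟩]),
  (19, []),
  (7, []),
  (0, [⟨[477, 0, 0], 1, 3, [0, 600], []⟩, ⟨[60, 0, 0, 264, 0, 0], 1, 3, [0, 243, 0, 0, 316], []⟩, ⟨[60, 0, 0, 677, 0, 0], 1, 3, [0, 361, 0, 0, 16], []⟩]),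
  (23, []),
  (0, [⟨[70], 1, 1, [1], [-1, 1, 0, 0, 0, 0, 1]⟩, ⟨[133, 627], 1, 2, [539, 465], [1, -2, 1, -1, 1, 0, 1, -1, 1, 0, 0, 0, 0, 0, 1]⟩, ⟨[133, 15], 1, 2, [95, 227], [-1, -1, 0, 0, 0, 0, 0, -1, 0, 1, 1, -1, 1]⟩, ⟨[133, 649], 1, 2, [517, 364], [-1, 0, 0, 2, 0, 0, 0, 0, 0, 2]⟩, ⟨[133, 682], 1, 2, [149, 455], [1, 2, 0, 0, 1, 0, -1, 0, 0, -1, 1]⟩, ⟨[133, 22], 1, 2, [293, 627], [-1, 2, 0, -1, 0, 0, 0, -1, 0, -1, 0, 0, 0, 0, -1]⟩, ⟨[133, 120], 1, 2, [94, 310], [0, -1, 1, 0, -1, 1, -1, 0, 0, -1, -1, 0, -1, 1]⟩, ⟨[133, 691], 1, 2, [566, 554], [-1, 1, -1, -1, 1, 0, 0, 0, 1, 1, 0, -1, 0, 0, -1]⟩]),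
  (7, []),
  (0, [⟨[71], 1, 1, [1], [-1, 0, 0, 1, 0, 0, 1, 0, 1]⟩, ⟨[334], 1, 1, [1], [-1, 0, 0, 0, 0, 1, 0, 0, 0, 1]⟩, ⟨[322], 1, 1, [1], [-1, -1, 0, 0, 1, 0, 1, 1]⟩, ⟨[333, 500, 277, 405], 1, 3, [590, 98, 696], []⟩, ⟨[604, 500, 48, 656], 1, 3, [103, 98, 13], []⟩, ⟨[517, 500, 402, 393], 1, 3, [34, 98, 18], []⟩]),
  (17, []),
  (0, [⟨[207], 1, 1, [1], [-1, 0, 0, -1, 0, -1, 0, -1]⟩, ⟨[15], 1, 1, [1], [-2, 1, 0, 0, 0, 1]⟩, ⟨[511], 1, 1, [1], [1, 2, 0, 1]⟩, ⟨[685, 290, 508, 718], 1, 3, [230, 504, 0, 124], []⟩, ⟨[657, 290, 398, 526], 1, 3, [242, 504, 0, 685], []⟩, ⟨[124, 290, 560, 222], 1, 3, [261, 504, 0, 657], []⟩]),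
  (11, []),
  (0, [⟨[374], 1, 1, [1], [-1, 1, 1, 0, 0, 1, 1]⟩, ⟨[701], 1, 1, [1], [1, 0, 1, 0, 0, 0, 0, 1]⟩, ⟨[403], 1, 1, [1], [1, 0, 0, 1, 0, -1, 0, 1]⟩, ⟨[534, 573], 1, 2, [525, 683], [1, -2, 1, 1, -1, 0, 1, 1, 0, 1]⟩, ⟨[534, 531], 1, 2, [50, 640], [-2, 1, -1, 0, 0, 1, -1, 1, 0, -1, -1]⟩, ⟨[171, 258], 1, 2, [481, 2], [1, -1, -1, 0, -1, 0, 1, 0, 0, -1, 1, -1]⟩, ⟨[34, 689], 1, 2, [208, 97], [1, -1, 0, -1, 0, 1, -1, 0, 0, 1, 1, 0, 1]⟩, ⟨[34, 88], 1, 2, [706, 555], [-1, -1, 0, 0, 0, -1, 1, 1, -1, 1]⟩, ⟨[171, 78], 1, 2, [247, 240], [1, 1, 1, 1, -1, 0, -2, 0, 1, 1]⟩]),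
  (0, [⟨[509], 1, 1, [1], [1, 0, -1, 0, 0, 0, 0, 0, 0, 1]⟩, ⟨[226, 234], 1, 2, [145, 583], [-1, 0, 1, -2, 1, 0, 1, 0, 0, 0, 0, 1]⟩, ⟨[191, 223, 291, 533], 1, 3, [219, 139, 628, 80], []⟩, ⟨[191, 651, 291, 719], 1, 3, [238, 224, 220, 96], []⟩, ⟨[191, 612, 226, 234], 1, 3, [695, 667, 0, 481], []⟩]),
  (7, []),
  (0, [⟨[2, 0, 0, 0, 0, 0, 0, 0, 0, 0, 0, 0, 0, 0, 0], 1, 3, [0, 0, 0, 0, 0, 0, 0, 0, 0, 0, 0, 0, 0, 656], []⟩]),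
  (0, [⟨[517, 0, 0], 1, 3, [0, 266], []⟩, ⟨[675, 0, 0, 423, 0, 0, 689, 0, 0, 240, 0, 0], 1, 3, [0, 41, 0, 0, 0, 0, 0, 596, 0, 0, 425], []⟩]),
  (0, [⟨[676, 0, 0, 0, 0], 1, 3, [0, 0, 0, 291], []⟩, ⟨[385, 0, 0, 0, 0, 85, 0, 0, 0, 0], 1, 3, [0, 0, 0, 441, 0, 0, 0, 0, 351], []⟩]),
  (7, []),
  (13, []),
  (0, [⟨[507, 0, 0], 1, 3, [0, 588], []⟩, ⟨[566, 0, 0, 383, 0, 0], 1, 3, [0, 191, 0, 0, 210], []⟩, ⟨[566, 0, 0, 648, 0, 0], 1, 3, [0, 496, 0, 0, 699], []⟩]),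
  (0, [⟨[254], 1, 1, [1], [-1, 0, 1, 0, 1, 0, 1]⟩, ⟨[416, 519], 1, 2, [281, 690], [1, 0, 0, -2, 0, 0, 2, 0, 0, 1]⟩, ⟨[96, 536, 416, 519], 1, 3, [207, 576, 0, 531], []⟩, ⟨[96, 228, 714, 39], 1, 3, [561, 704, 5, 530], []⟩, ⟨[96, 9, 714, 215], 1, 3, [448, 630, 623, 579], []⟩]),
  (19, []),
  (11, []),
  (0, [⟨[722, 0, 0], 1, 3, [0, 113], []⟩, ⟨[109, 0, 0, 749, 0, 0, 497, 0, 0, 65, 0, 0], 1, 3, [0, 339, 0, 0, 0, 0, 0, 135, 0, 0, 242], []⟩]),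
  (7, []),
  (13, []),
  (0, [⟨[775], 1, 1, [1], [1, 1, -1, 0, 1, 1]⟩, ⟨[313, 22], 1, 2, [640, 449], [1, 2, 1, 0, 0, 1, 1, 0, 0, 0, 1, 0, 1]⟩, ⟨[62, 594, 171, 13], 1, 3, [113, 546, 171, 256], []⟩, ⟨[62, 287, 313, 22], 1, 3, [687, 401, 36], []⟩, ⟨[62, 713, 171, 762], 1, 3, [190, 151, 536, 444], []⟩]),
  (17, []),
  (11, []),
  (0, [⟨[583], 1, 1, [1], [-1, 0, -1, -1, 1]⟩, ⟨[700, 625], 1, 2, [241, 29], [1, -1, 0, 1, 1, -1, 0, 0, 0, 1, 0, 0, 0, 1, 1]⟩, ⟨[700, 372], 1, 2, [477, 689], [1, 2, 0, 0, 0, -1, 0, 0, -1, 1, 0, 1]⟩, ⟨[700, 593], 1, 2, [187, 189], [-2, -1, 1, 1, 0, 0, 1, 0, 0, -1, -1, 1]⟩, ⟨[700, 226], 1, 2, [457, 762], [1, 1, -1, 0, 3, 2, 1]⟩, ⟨[700, 330], 1, 2, [731, 530], [-1, 1, 1, 0, 0, 0, -1,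 1, 1, 1, 1, 0, 1]⟩, ⟨[700, 653], 1, 2, [101, 551], [1, -1, 2, 0, 1, -1, 1, -1, 0, 0, 0, -1]⟩, ⟨[700, 663], 1, 2, [85, 788], [-1, -1, 1, 1, 0, 0, -1, 0, 0, 0, 1, 0, 1]⟩]),
  (0, [⟨[231, 0, 0, 0, 0], 1, 3, [0, 0, 0, 14], []⟩, ⟨[23, 0, 0, 0, 0], 1, 3, [0, 0, 0, 599], []⟩, ⟨[557, 0, 0, 0, 0], 1, 3, [0, 0, 0, 198], []⟩]),
  (19, []),
  (0, [⟨[240, 0, 0, 0, 0], 1, 3, [0, 0, 0, 172], []⟩, ⟨[691, 0, 0, 0, 0, 581, 0, 0, 0, 0], 1, 3, [0, 0, 0, 366, 0, 0, 0, 0, 47], []⟩]),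
  (0, [⟨[476, 0, 0], 1, 3, [0, 487], []⟩, ⟨[370, 0, 0, 682, 0, 0, 572, 0, 0, 347, 0, 0], 1, 3, [0, 648, 0, 0, 263, 0, 0, 133, 0, 0, 609], []⟩]),
  (0, [⟨[216], 1, 1, [1], [1, 0, 0, 0, 0, 0, 1, 0, 1]⟩, ⟨[483, 611], 1, 2, [231, 117], [-1, 1, 2, 1, 0, 0, 1, 0, -1, 0, 1, -1]⟩, ⟨[752, 767, 688, 822], 1, 3, [27, 625, 249, 151], []⟩, ⟨[752, 126, 483, 611], 1, 3, [426, 403, 333], []⟩, ⟨[752, 761, 688, 221], 1, 3, [675, 622, 159, 389], []⟩]),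
  (0, [⟨[170, 0, 0], 1, 3, [0, 408], []⟩, ⟨[115, 0, 0, 260, 0, 0], 1, 3, [0, 331, 0, 0, 558], []⟩, ⟨[115, 0, 0, 399, 0, 0], 1, 3, [0, 4, 0, 0, 717], []⟩]),
  (7, []),
  (0, [⟨[762], 1, 1, [1], [-1, 0, -1, -1, 1, 1]⟩, ⟨[783, 325], 1, 2, [200, 386], [1, 2, 0, 0, 1, 1, 0, 1, 0, 1, 0, 0, 1]⟩, ⟨[783, 77], 1, 2, [454, 10], [1, -1, 1, 0, 1, -1, 1, 0, 1, 0, -1, 0, 0, 0, -1]⟩, ⟨[783, 252], 1, 2, [679, 787], [-1, -1, -1, -1, 1, 1, 0, 0, -2]⟩, ⟨[783, 591], 1, 2, [323, 483], [-1, 0, 1, 0, 1, 1, -1, 0, 1, 0, 0, 0, 0, 1]⟩, ⟨[783, 156], 1, 2, [482, 295], [1, 2, -1, 1, 1, -1, 0, 0, 0, 1]⟩, ⟨[783, 92], 1, 2, [156, 179], [1, 0, 0, 0, 1, 0, 0, -1, -1, 1, 1, 0, 0, 1]⟩, ⟨[783, 262], 1, 2, [350, 657], [-1, -1, 0, 0, -3,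 1, -1, 1]⟩]),
  (29, []),
  (7, []),
  (23, []),
  (0, [⟨[815, 0, 0], 1, 3, [0, 636], []⟩, ⟨[449, 0, 0, 280, 0, 0, 262, 0, 0, 38, 0, 0], 1, 3, [0, 163, 0, 0, 48, 0, 0, 80, 0, 0, 123], []⟩]),
  (0, [⟨[13], 1, 1, [1], [1, 0, -1, 0, 0, -1, 0, 0, 0, 0, 1]⟩, ⟨[688, 844], 1, 2, [22, 333], [-1, 0, 1, 0, -1, 0, 1, 1, -1, 1, 0, 1]⟩, ⟨[577, 320, 338, 432], 1, 3, [43, 425, 838, 665], []⟩, ⟨[577, 374, 688, 844], 1, 3, [143, 434, 726], []⟩, ⟨[577, 163, 338, 438], 1, 3, [241, 212, 775, 766], []⟩]),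
  (0, [⟨[575, 0, 0], 1, 3, [0, 491], []⟩, ⟨[90, 0, 0, 499, 0, 0], 1, 3, [0, 293, 0, 0, 755], []⟩, ⟨[90, 0, 0, 644, 0, 0], 1, 3, [0, 220, 0, 0, 601], []⟩]),
  (0, [⟨[286], 1, 1, [1], [-1, 0, 0, -1, 0, -1, 0, 0, 1]⟩, ⟨[189, 577], 1, 2, [345, 449], [1, 0, -1, 0, 0, 0, -1, 0, -1, 0, 0, 1, -1, 1]⟩, ⟨[525, 30, 485, 793], 1, 3, [148, 694, 172, 494], []⟩, ⟨[525, 285, 485, 356], 1, 3, [368, 369, 834, 585], []⟩, ⟨[525, 548, 189, 577], 1, 3, [221, 40, 0, 561], []⟩]),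
  (11, []),
  (13, []),
  (0, [⟨[80, 0, 0], 1, 3, [0, 391], []⟩, ⟨[285, 0, 0, 168, 0, 0, 616, 0, 0, 797, 0, 0], 1, 3, [0, 296, 0, 0, 0, 0, 0, 536, 0, 0, 121], []⟩]),
  (0, [⟨[360, 0, 0, 0, 0], 1, 3, [0, 0, 0, 822], []⟩, ⟨[788, 0, 0, 0, 0, 521, 0, 0, 0, 0], 1, 3, [0, 0, 0, 181, 0, 0, 0, 0, 45], []⟩]),
  (0, [⟨[200, 0, 0], 1, 3, [0, 78], []⟩, ⟨[415, 0, 0, 863, 0, 0, 618, 0, 0, 683, 0, 0], 1, 3, [0, 793, 0, 0, 711, 0, 0, 557, 0, 0, 829], []⟩]),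
  (0, [⟨[580], 1, 1, [1], [1, 0, 0, 1, -1, -1, 0, 1]⟩, ⟨[660, 307], 1, 2, [600, 155], [-1, -1, 1, 0, 0, 0, 1, 0, 0, 0, 0, -1, 1, 1]⟩, ⟨[804, 618, 454, 589], 1, 3, [234, 28, 314, 644], []⟩, ⟨[804, 653, 454, 878], 1, 3, [696, 434, 744, 177], []⟩, ⟨[804, 503, 660, 307], 1, 3, [794, 565, 109], []⟩]),
  (7, []),
  (19, []),
  (29, []),
  (17, []),
  (0, [⟨[660, 0, 0], 1, 3, [0, 530], []⟩, ⟨[448, 0, 0, 325, 0, 0, 667, 0, 0, 247, 0, 0], 1, 3, [0, 683, 0, 0, 0, 0, 0, 177, 0, 0, 70], []⟩]),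
  (0, [⟨[817], 1, 1, [1], [1, 0, 0, 0, -1, 1]⟩, ⟨[684], 1, 1, [1], [1, -1, 0, -1, 1, 0, 0, 1]⟩, ⟨[43], 1, 1, [1], [1, 0, -1, 1, 0, 0, -1, 0, 1]⟩, ⟨[242], 1, 1, [1], [1, 0, 0, 1, -1, -1, 0, -1]⟩, ⟨[36], 1, 1, [1], [1, 2, 0, 1, 1]⟩, ⟨[884, 868], 1, 2, [113, 90], [1, 0, 1, 0, 1, 1, 1, 0, -1, 0, -1, 0, 1]⟩, ⟨[651, 669], 1, 2, [325, 605], [1, 0, 0, 1, 0, 0, -1, 0, 0, 0, 0, 0, 2]⟩, ⟨[526, 875], 1, 2, [717, 799], [1, 1, -2, 1, 1, -1, -1, 0, 0, 1]⟩, ⟨[398, 227], 1, 2, [709, 676], [1, -1, -1, 0, 1, 1, 1, 0, 1, -1, 0, 0, -1]⟩, ⟨[274, 94], 1, 2, [869, 563], [1, 0, 0, 0, 1, -1, 0, 0, 1, 1, 1]⟩]),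
  (11, []),
  (7, []),
  (0, [⟨[160], 1, 1, [1], [-1, 0, 0, 0, 0, 0, -1, 1]⟩, ⟨[49], 1, 1, [1], [-1, 0, 0, 0, 1, 0, -1, 1]⟩, ⟨[710], 1, 1, [1], [1, -1, -1, 0, 0, 1, 0, 1]⟩, ⟨[132, 744], 1, 2, [911, 336], [1, 0, 0, 0, 1, 1, -2, 2, 0, 1]⟩, ⟨[132, 15], 1, 2, [703, 764], [1, 1, 1, -1, 0, 0, -1, 0, 1, 1, -1, 0, 0, 1]⟩, ⟨[431, 124], 1, 2, [715, 863], [1, 1, -1, -1, 0, 1, 1, -1, 0, 0, -1, 1]⟩, ⟨[356, 780], 1, 2, [420, 211], [-1, 2, 1, -1, 1, -1, 0, -1, 0, 1]⟩, ⟨[431, 85], 1, 2, [503, 572], [1, -2, 0, 1, -1, 1, -1, 0, 0, 0, 1, 1]⟩, ⟨[356, 90], 1, 2, [424, 11], [1, 1, 0, 1, -1, 1, 0, 0, 0, -1, 0, 0, 1, 1]⟩]),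
  (13, []),
  (0, [⟨[745], 1, 1, [1], [-1, -1, 0, 1, 0, 0, 0, 0, 0, 0, -1]⟩, ⟨[517, 370], 1, 2, [286, 822], [-2, 1, 1, -1, 1, 1, 0, 1, -1, 0, 1, 0, 1]⟩, ⟨[517, 423], 1, 2, [62, 294], [-1, 1, -1, 0, 0, 1, 1, 0, 0, -1, 0, 1]⟩, ⟨[517, 184], 1, 2, [69, 696], [1, 2, 2, 0, -1, 0, -1, 0, 0, 0, 0, 0, 1]⟩, ⟨[517, 452], 1, 2, [558, 721], [1, 0, -2, -1, -1, 0, 0, -1, 0, 0, 1]⟩, ⟨[517, 130], 1, 2, [733, 589], [1, 0, 0, 2, 0, 0, -1, 1, 0, -1, 0, 0, 1]⟩, ⟨[517, 429], 1, 2, [750, 3], [1, 1, 0, 1, 0, 0, 1, 0, 1, 1, -1, 1, 1]⟩, ⟨[517, 54], 1, 2, [403, 570], [1, -1, 0, -1, 1, 0, 0, 1, 0, 0, 0, 0, 0, -1, 1]⟩]),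
  (7, []),
  (0, [⟨[913, 0, 0], 1, 3, [0, 13], []⟩, ⟨[859, 0, 0, 706, 0, 0, 361, 0, 0, 24, 0, 0], 1, 3, [0, 39, 0, 0, 0, 0, 0, 261, 0, 0, 116], []⟩]),
  (0, [⟨[260, 0, 0, 0, 0], 1, 3, [0, 0, 0, 249], []⟩, ⟨[152, 0, 0, 0, 0, 681, 0, 0, 0, 0], 1, 3, [0, 0, 0, 25, 0, 0, 0, 0, 794], []⟩]),
  (23, []),
  (0, [⟨[18], 1, 1, [1], [-1, 0, -1, 1, 1, 0, 0, -1]⟩, ⟨[623, 929], 1, 2, [228, 341], [-1, 2, -1, 0, 0, 0, 1, 1, 1, 0, 1, 0, 1]⟩, ⟨[141, 776, 648, 834], 1, 3, [827, 335, 803, 248], []⟩, ⟨[141, 321, 648, 131], 1, 3, [272, 208, 641, 849], []⟩, ⟨[141, 797, 623, 929], 1, 3, [553, 673, 180], []⟩]),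
  (13, []),
  (0, [⟨[698], 1, 1, [1], [1, -1, 0, 2]⟩, ⟨[732, 255], 1, 2, [806, 46], [0, 1, -1, 0, 1, 0, 0, 0, 1, 1, -1, 0, -1, 0, 1]⟩, ⟨[715, 947, 442, 159], 1, 3, [944, 95, 323, 775], []⟩, ⟨[715, 831, 442, 539], 1, 3, [617, 925, 606, 705], []⟩, ⟨[715, 128, 732, 255], 1, 3, [395, 204, 0, 296], []⟩]),
  (7, []),
  (31, []),
  (0, [⟨[467, 0, 0], 1, 3, [0, 840], []⟩, ⟨[762, 0, 0, 745, 0, 0, 453, 0, 0, 500, 0, 0], 1, 3, [0, 586, 0, 0, 0, 0, 0, 252, 0, 0, 29], []⟩]),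
  (0, [⟨[424], 1, 1, [1], [-1, -1, 0, 1, 0, 0, 0, 0, 1]⟩, ⟨[619], 1, 1, [1], [1, 1, 1, -1, 0, 0, 0, 0, 0, 1]⟩, ⟨[372], 1, 1, [1], [1, 1, 0, 0, -1, 0, 0, 0, 1]⟩, ⟨[622], 1, 1, [1], [1, 1, 0, -1, 0, -1, 0, 1]⟩, ⟨[876], 1, 1, [1], [1, 0, 0, 0, 0, -1, 0, 1]⟩, ⟨[830, 547], 1, 2, [871, 769], [1, 1, 1, -2, 1, 0, 1, 0, 1, 1, 0, -1]⟩, ⟨[685, 95], 1, 2, [293, 464], [1, 0, 0, 0, 0, 1, 0, -1, 0, 0, 1, 0, 1, 0, 1]⟩, ⟨[545, 349], 1, 2, [856, 699], [-1, 2, 1, 0, 1, 0, -1, 1, 0, 0, -1, 1]⟩, ⟨[384, 352], 1, 2, [297, 59], [1, 0, 0, -1, 0, 0, 0, 0, 0, -1, 0, 0, -2]⟩, ⟨[469, 599], 1, 2, [596, 922], [-1, -1, -1, 0, -1, 2, 0, 0, 0, 1, 0, 0, -1]⟩]),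
  (7, []),
  (0, [⟨[169], 1, 1, [1], [1, 1, 0, 1, 1, 0, 0, 0, 1]⟩, ⟨[749, 808], 1, 2, [713, 20], [1, 1, 0, 0, 0, 1, 0, 0, 0, 1, -1, -1, 0, -1]⟩, ⟨[774, 844, 456, 251], 1, 3, [65, 758, 175, 267], []⟩, ⟨[774, 548, 749, 808], 1, 3, [965, 844, 617], []⟩, ⟨[774, 562, 456, 895], 1, 3, [55, 654, 725, 204], []⟩]),
  (11, []),
  (0, [⟨[114], 1, 1, [1], [-1, 0, 1, 0, 0, 1, 0, 0, 0, 0, 0, 0, 1]⟩, ⟨[766, 869], 1, 2, [503, 302], [-3, 0, 0, 2, 0, 0, 1, 0, 0, 1]⟩, ⟨[95, 766, 434, 115], 1, 3, [120, 75, 52, 662], []⟩, ⟨[95, 380, 434, 982], 1, 3, [564, 317, 486, 263], []⟩, ⟨[95, 820, 766, 869], 1, 3, [877, 275, 0, 185], []⟩]),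
  (23, []),
  (0, [⟨[2, 0, 0, 0, 0, 0, 0, 0, 0, 0, 0, 0, 0, 0, 0], 1, 3, [0, 0, 0, 0, 0, 0, 0, 0, 0, 0, 0, 0, 0, 20], []⟩]),
  (0, [⟨[179], 1, 1, [1], [1, 0, 1, 1, -1, 0, 1]⟩, ⟨[578], 1, 1, [1], [-1, 0, -1, 0, 0, 0, 1]⟩, ⟨[240], 1, 1, [1], [1, 0, 0, 0, 0, -1, 0, 0, 0, 0, 0, 0, 1]⟩, ⟨[174, 402, 860, 818], 1, 3, [147, 187, 314], []⟩, ⟨[768, 402, 226, 757], 1, 3, [30, 187, 741], []⟩, ⟨[55, 402, 908, 419], 1, 3, [820, 187, 939], []⟩]),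
  (7, []),
  (17, []),
  (19, []),
  (0, [⟨[328, 0, 0], 1, 3, [0, 565], []⟩, ⟨[379, 0, 0, 501, 0, 0], 1, 3, [0, 446, 0, 0, 770], []⟩, ⟨[379, 0, 0, 180, 0, 0], 1, 3, [0, 330, 0, 0, 905], []⟩]),
  (0, [⟨[633], 1, 1, [1], [-1, -1, 0, 1, -1, 0, 1]⟩, ⟨[459, 380], 1, 2, [335, 718], [1, -1, 1, 1, 1, 1, 1, 1, 0, 1, 0, 0, -1]⟩, ⟨[23, 40, 95, 99], 1, 3, [867, 762, 677, 11], []⟩, ⟨[23, 829, 459, 380], 1, 3, [418, 708, 0, 194], []⟩, ⟨[23, 144, 95, 534], 1, 3, [839, 752, 600, 959], []⟩]),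
  (0, [⟨[38], 1, 1, [1], [-1, 0, 1, 1, 0, 0, 0, 0, 0, 0, 1]⟩, ⟨[594, 981], 1, 2, [438, 613], [-1, 1, 2, 0, 1, 0, 0, 0, 0, 1, 1, 0, 0, 1]⟩, ⟨[594, 624], 1, 2, [55, 800], [1, 0, 1, 0, 1, 1, 1, -1, -1, 0, 0, 0, -1]⟩, ⟨[594, 825], 1, 2, [913, 188], [1, 0, 1, 0, -2, 1, -1, 1, 0, 1, 1]⟩, ⟨[594, 589], 1, 2, [882, 843], [-1, 0, -2, -1, 0, -1, 0, -1, 0, 0, -1, 0, 1]⟩, ⟨[594, 392], 1, 2, [432, 996], [-1, 0, 1, -1, -1, 1, -2, -1, 1]⟩, ⟨[594, 88], 1, 2, [319, 757], [-2, 1, -2, 0, 0, 0, 0, 0, 0, 0, 1, 1]⟩, ⟨[594, 539], 1, 2, [54, 739], [2, -1, 0, 0, 0, 1, -1, 0, 0, 0, 0, 0, 1, 0, 1]⟩]),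
  (0, [⟨[315, 0, 0, 0, 0], 1, 3, [0, 0, 0, 252], []⟩, ⟨[547, 0, 0, 0, 0], 1, 3, [0, 0, 0, 944], []⟩, ⟨[159, 0, 0, 0, 0], 1, 3, [0, 0, 0, 846], []⟩]),
  (13, []),
  (0, [⟨[798, 0, 0, 0, 0], 1, 3, [0, 0, 0, 778], []⟩, ⟨[354, 0, 0, 0, 0, 233, 0, 0, 0, 0], 1, 3, [0, 0, 0, 850, 0, 0, 0, 0, 938], []⟩]),
  (0, [⟨[1014, 0, 0], 1, 3, [0, 888], []⟩, ⟨[870, 0, 0, 661, 0, 0, 672, 0, 0, 19, 0, 0], 1, 3, [0, 391, 0, 0, 962, 0, 0, 80, 0, 0, 749], []⟩]),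
  (17, []),
  (0, [⟨[532, 0, 0], 1, 3, [0, 97], []⟩, ⟨[623, 0, 0, 49, 0, 0], 1, 3, [0, 668, 0, 0, 384], []⟩, ⟨[623, 0, 0, 458, 0, 0], 1, 3, [0, 681, 0, 0, 11], []⟩]),
  (7, []),
  (0, [⟨[373], 1, 1, [1], [-1, 0, 0, 1, 1, 0, 0, 1]⟩, ⟨[388, 483], 1, 2, [789, 948], [1, 0, -1, -1, -1, 0, 0, 0, 1, -1, 0, -1, 1]⟩, ⟨[388, 965], 1, 2, [291, 981], [1, -2, 0, 1, -2, 0, 0, -1, 0, 0, -1, 1]⟩, ⟨[388, 1047], 1, 2, [120, 120], [1, 0, -1, 2, 0, 1, 0, 1, -1, 1]⟩, ⟨[388, 1025], 1, 2, [209, 979], [-1, 1, 0, -1, 0, -1, 0, 0, 0, 0, 0, -1, 0, 1, -1]⟩, ⟨[388, 676], 1, 2, [15, 301], [1, 1, 1, 1, 1, 1, -1, 0, 0, 0, -1, 0, 0, 0, 1]⟩, ⟨[388, 590], 1, 2, [675, 620], [1, -3, -2, 0, 1, 0, 0, 0, -1, 0, 1]⟩, ⟨[388, 86], 1, 2, [419,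 283], [-1, 0, -1, 0, 1, -1, 0, 0, 0, 1, 0, 0, 1, 1]⟩]),
  (0, [⟨[131, 0, 0, 0, 0], 1, 3, [0, 0, 0, 446], []⟩, ⟨[462, 0, 0, 0, 0], 1, 3, [0, 0, 0, 404], []⟩, ⟨[458, 0, 0, 0, 0], 1, 3, [0, 0, 0, 201], []⟩]),
  (7, []),
  (0, [⟨[111, 0, 0, 0, 0], 1, 3, [0, 0, 0, 75], []⟩, ⟨[411, 0, 0, 0, 0, 950, 0, 0, 0, 0], 1, 3, [0, 0, 0, 657, 0, 0, 0, 0, 1027], []⟩]),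
  (0, [⟨[529, 0, 0], 1, 3, [0, 992], []⟩, ⟨[426, 0, 0, 680, 0, 0, 791, 0, 0, 534, 0, 0], 1, 3, [0, 714, 0, 0, 370, 0, 0, 803, 0, 0, 964], []⟩]),
  (11, []),
  (0, [⟨[38], 1, 1, [1], [-1, 0, 0, 0, -1, 0, 0, 0, -1, 1]⟩, ⟨[61], 1, 1, [1], [1, 1, -1, 0, -1, 0, 1]⟩, ⟨[970], 1, 1, [1], [-1, 0, 0, 0, -1, 1, 0, 0, 1]⟩, ⟨[694, 202], 1, 2, [55, 571], [2, -1, 1, 0, -1, 0, 0, 0, 1, -1, -1, 0, 1]⟩, ⟨[889, 569], 1, 2, [561, 990], [-1, 0, 0, 1, -1, 1, 0, 0, 1, 0, 1]⟩, ⟨[555, 740], 1, 2, [141, 459], [-1, -1, 0, 0, 0, -1, 1, 1, 0, 0, 1, 0, 0, 0, 1]⟩, ⟨[555, 268], 1, 2, [560, 1001], [1, 0, 0, 1, 0, 0, 0, -1, 0, -1, -1, 0, 1]⟩, ⟨[889, 599], 1, 2, [454, 566], [1, -2, 0, 0, 0, -1, -1, -1, -1, 0, -1, 0, 1]⟩, ⟨[694, 829],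 1, 2, [367, 689], [1, 0, 2, 0, 0, 0, 0, 0, 0, -1, 1, -1, 1]⟩]),
  (29, []),
  (13, []),
  (23, []),
  (0, [⟨[587, 0, 0], 1, 3, [0, 379], []⟩, ⟨[987, 0, 0, 435, 0, 0, 10, 0, 0, 500, 0, 0], 1, 3, [0, 50, 0, 0, 0, 0, 0, 198, 0, 0, 720], []⟩]),
  (0, [⟨[462, 0, 0, 0, 0], 1, 3, [0, 0, 0, 310], []⟩, ⟨[392, 0, 0, 0, 0, 629, 0, 0, 0, 0], 1, 3, [0, 0, 0, 994, 0, 0, 0, 0, 36], []⟩]),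
  (0, [⟨[384], 1, 1, [1], [-1, -1, 0, 0, 0, 1]⟩, ⟨[654], 1, 1, [1], [1, 1, 0, 1, -1, 1]⟩, ⟨[55], 1, 1, [1], [1, -1, 0, 0, 0, -1, -1, 0, 1]⟩, ⟨[36, 854, 99, 709], 1, 3, [711, 1018, 0, 201], []⟩, ⟨[1086, 854, 740, 439], 1, 3, [135, 1018, 0, 52], []⟩, ⟨[1064, 854, 254, 1038], 1, 3, [247, 1018, 0, 840], []⟩]),
  (0, [⟨[669], 1, 1, [1], [-1, 0, 0, 1, 0, 0, 0, 0, 1]⟩, ⟨[15, 428], 1, 2, [1009, 390], [-1, 0, -1, 0, 0, 0, 0, 0, 1, -1, -1, 0, -1, -1]⟩, ⟨[872, 162, 15, 428], 1, 3, [863, 172, 235], []⟩, ⟨[872, 580, 1067, 342], 1, 3, [134, 597, 378, 494], []⟩, ⟨[872, 355, 1067, 327], 1, 3, [12, 202, 680, 259], []⟩]),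
  (7, []),
  (0, [⟨[4], 1, 1, [1], [-1, 0, 1, 1, 0, 1]⟩, ⟨[1087, 1099], 1, 2, [92, 46], [1, -2, 1, -1, 0, 1, 0, -2, 0, 0, 1]⟩, ⟨[847, 1039, 1087, 1099], 1, 3, [455, 941, 0, 659], []⟩, ⟨[847, 223, 32, 59], 1, 3, [789, 1069, 598, 672], []⟩, ⟨[847, 944, 32, 1048], 1, 3, [1072, 327, 393, 417], []⟩]),
  (0, [⟨[971], 1, 1, [1], [-1, 1, 0, 0, 0, 0, -1, 1, 1]⟩, ⟨[918, 711], 1, 2, [66, 931], [-1, 0, 1, -1, 0, 0, 0, -1, 0, 0, -1, 1, 0, -1]⟩, ⟨[918, 716], 1, 2, [879, 614], [-1, 0, 1, -1, 0, -1, -1, 0, -1, 0, 1, 0, 0, 1]⟩, ⟨[918, 531], 1, 2, [897, 855], [1, -1, 1, 0, -2, -1, -1, 0, -1, 0, 1]⟩, ⟨[918, 976], 1, 2, [294, 413], [-1, 0, 0, 0, -1, 0, 0, -2, 1, 0, 1]⟩, ⟨[918, 188], 1, 2, [972, 320], [-1, -2, -1, -1, -2,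 0, 1, 0, 0, 0, 1]⟩, ⟨[918, 205], 1, 2, [677, 107], [-1, -1, 0, 0, 1, 1, 0, 1, 0, -1, 0, 1]⟩, ⟨[918, 138], 1, 2, [592, 120], [0, -1, -1, 0, 0, 1, 1, 0, 0, 1, 0, 2, 1]⟩]),
  (11, []),
  (0, [⟨[1075, 0, 0], 1, 3, [0, 328], []⟩, ⟨[266, 0, 0, 366, 0, 0, 470, 0, 0, 42, 0, 0], 1, 3, [0, 984, 0, 0, 0, 0, 0, 607, 0, 0, 286], []⟩]),
  (19, []),
  (0, [⟨[942, 0, 0], 1, 3, [0, 1032], []⟩, ⟨[546, 0, 0, 301, 0, 0, 929, 0, 0, 181, 0, 0], 1, 3, [0, 521, 0, 0, 214, 0, 0, 858, 0, 0, 1012], []⟩]),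
  (7, []),
  (0, [⟨[1037, 0, 0], 1, 3, [0, 1084], []⟩, ⟨[568, 0, 0, 822, 0, 0], 1, 3, [0, 977, 0, 0, 215], []⟩, ⟨[568, 0, 0, 399, 0, 0], 1, 3, [0, 909, 0, 0, 363], []⟩]),
  (11, []),
  (17, []),
  (7, []),
  (31, []),
  (0, [⟨[70, 0, 0, 0, 0], 1, 3, [0, 0, 0, 853], []⟩, ⟨[855, 0, 0, 0, 0, 1081, 0, 0, 0, 0], 1, 3, [0, 0, 0, 699, 0, 0, 0, 0, 1089], []⟩]),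
  (0, [⟨[478, 0, 0], 1, 3, [0, 636], []⟩, ⟨[796, 0, 0, 267, 0, 0, 963, 0, 0, 675, 0, 0], 1, 3, [0, 368, 0, 0, 567, 0, 0, 546, 0, 0, 741], []⟩]),
  (13, []),
  (19, []),
  (0, [⟨[707], 1, 1, [1], [1, 0, 0, 0, 0, 1, 0, 1]⟩, ⟨[241, 456], 1, 2, [295, 1126], [1, 0, 0, 0, 0, -1, 0, -1, 0, 0, 1, 0, -1, 0, 1]⟩, ⟨[69, 589, 241, 456], 1, 3, [803, 62, 0, 144], []⟩, ⟨[69, 1140, 681, 12], 1, 3, [87, 1122, 86, 428], []⟩, ⟨[69, 597, 681, 695], 1, 3, [772, 351, 369, 292], []⟩]),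
  (7, []),
  (0, [⟨[2, 0, 0, 0, 0, 0, 0, 0, 0, 0, 0, 0, 0, 0, 0], 1, 3, [0, 0, 0, 0, 0, 0, 0, 0, 0, 0, 0, 0, 0, 172], []⟩])] (by decide +kernel)

theorem ra {F : Type*} [Field F] [NumberField F] {α : NumberField.RingOfIntegers F} (h : Gen α fl) :
    Range F 30 1373170 0 1172 :=
  have hs : splitOK fl m 2 ρ = true := by decide +kernel
  ((((a0.range h hs).trans (a1.range h hs)).trans (a2.range h hs)).trans (a3.range h hs)).trans (a4.range h hs)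

end Pool.Agent.Lib.MP_ab8df0_nt.A.N0
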